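import Mathlib

/-!
Reduction of relations between Weil numbers to relations of length four.
-/

namespace Pool.Agent.H924R2

/-- Weil `q`-numbers: algebraic integers all of whose conjugates have absolute value `√q`. -/
def IsWeil (q : ℕ) (α : AlgebraicClosure ℚ) : Prop :=
  IsIntegral ℤ α ∧ ∀ φ : AlgebraicClosure ℚ →+* ℂ, ‖φ α‖ ^ 2 = q

section Basic

theorem nonempty_emb (k : Type*) [Field k] [Algebra k ℂ] :
    Nonempty (AlgebraicClosure k →+* ℂ) :=
  ⟨(IsAlgClosed.lift (R := k) (S := AlgebraicClosure k) (M := ℂ)).toRingHom⟩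

theorem instFactQ : Nonempty (AlgebraicClosure ℚ →+* ℂ) := nonempty_emb ℚ

theorem IsWeil.ne_zero {q : ℕ} (hq : 0 < q) {α : AlgebraicClosure ℚ} (h : IsWeil q α) :
    α ≠ 0 := by
  rintro rfl
  obtain ⟨φ⟩ := instFactQ
  have := h.2 φ
  rw [map_zero, norm_zero] at this
  norm_num at this
  exact hq.ne' (by exact_mod_cast this.symm)

theorem IsWeil.dual {q : ℕ} (hq : 0 < q) {α : AlgebraicClosure ℚ} (h : IsWeil q α) :
    IsWeil q (q / α) := by
  have h0 := h.ne_zero hq
  have hconj : ∀ φ : AlgebraicClosure ℚ →+* ℂ, φ (q / α) = (starRingEnd ℂ) (φ α) := by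
    intro φ
    have h1 : φ α ≠ 0 := (map_ne_zero φ).2 h0
    rw [map_div₀, map_natCast, div_eq_iff h1, mul_comm, Complex.mul_conj,
      Complex.normSq_eq_norm_sq, h.2 φ]
    simp
  constructor
  · obtain ⟨φ⟩ := instFactQ
    have h1 : IsIntegral ℤ (φ (q / α)) := by
      rw [hconj]
      exact (h.1.map φ.toIntAlgHom).map (starRingEnd ℂ).toIntAlgHom
    exact (isIntegral_algHom_iff φ.toIntAlgHom φ.injective).1 h1
  · intro φ
    rw [hconj, RCLike.norm_conj]
    exact h.2 φ

theorem IsWeil.mul_aux {a b : ℕ} {α β : AlgebraicClosure ℚ} (hα : IsWeil a α) (hβ : IsWeil b β) :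
    IsWeil (a * b) (α * β) := by
  refine ⟨hα.1.mul hβ.1, fun φ => ?_⟩
  rw [map_mul, norm_mul, mul_pow, hα.2, hβ.2]
  push_cast; ring

theorem IsWeil.one : IsWeil 1 1 := ⟨isIntegral_one, fun φ => by simp⟩

theorem IsWeil.pow {a : ℕ} {α : AlgebraicClosure ℚ} (hα : IsWeil a α) (n : ℕ) :
    IsWeil (a ^ n) (α ^ n) := by
  induction n with
  | zero => simpa using IsWeil.one
  | succ n ih => rw [pow_succ, pow_succ]; exact ih.mul_aux hα

theorem IsWeil.prod {a : ℕ} (I : Multiset (AlgebraicClosure ℚ)) (h : ∀ α ∈ I, IsWeil a α) :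
    IsWeil (a ^ I.card) I.prod := by
  induction I using Multiset.induction_on with
  | empty => simpa using IsWeil.one
  | cons α I ih =>
    rw [Multiset.card_cons, Multiset.prod_cons, pow_succ, mul_comm (a ^ _)]
    exact (h α (by simp)).mul_aux (ih (fun β hβ => h β (by simp [hβ])))

theorem IsWeil.sqrt {q : ℕ} {s : AlgebraicClosure ℚ} (hs : s ^ 2 = q) : IsWeil q s := by
  constructor
  · refine IsIntegral.of_pow (n := 2) (by norm_num) ?_
    rw [hs]
    exact_mod_cast (isIntegral_algebraMap (R := ℤ) (x := (q : ℤ)) :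
      IsIntegral ℤ (algebraMap ℤ (AlgebraicClosure ℚ) q))
  · intro φ
    rw [← norm_pow, ← map_pow, hs, map_natCast, Complex.norm_natCast]

end Basic

section Closure

variable {Q : Type*} (W : Set Q) (D : Q → Q) (A : Multiset Q → Prop)

/-- The closure properties used. -/
structure Closed : Prop where
  dW : ∀ β ∈ W, D β ∈ W
  dd : ∀ β ∈ W, D (D β) = β
  mul : ∀ M M', (∀ β ∈ M, β ∈ W) → (∀ β ∈ M', β ∈ W) → A M → A M' → A (M + M')
  con : ∀ M, ∀ β ∈ W, (∀ γ ∈ M, γ ∈ W) → A (β ::ₘ D β ::ₘ M) → A M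
  div : ∀ β ∈ W, A (β ::ₘ D β ::ₘ 0)

variable {W D A}

/-- All members of the multiset are in `W`. -/
def AllIn (W : Set Q) (M : Multiset Q) : Prop := ∀ β ∈ M, β ∈ W

theorem AllIn.add {M M' : Multiset Q} (h : AllIn W M) (h' : AllIn W M') : AllIn W (M + M') := by
  intro β hβ
  rcases Multiset.mem_add.1 hβ with h1 | h1
  · exact h β h1
  · exact h' β h1

theorem AllIn.left {M M' : Multiset Q} (h : AllIn W (M + M')) : AllIn W M :=
  fun β hβ => h β (Multiset.mem_add.2 (Or.inl hβ))

theorem AllIn.right {M M' : Multiset Q} (h : AllIn W (M + M')) : AllIn W M' :=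
  fun β hβ => h β (Multiset.mem_add.2 (Or.inr hβ))

theorem AllIn.cons {β : Q} {M : Multiset Q} (h : β ∈ W) (h' : AllIn W M) :
    AllIn W (β ::ₘ M) := by
  intro γ hγ
  rcases Multiset.mem_cons.1 hγ with h1 | h1
  · rw [h1]; exact h
  · exact h' γ h1

theorem AllIn.zero : AllIn W (0 : Multiset Q) := fun β hβ => by simp at hβ

theorem AllIn.dual (hc : Closed W D A) {M : Multiset Q} (h : AllIn W M) :
    AllIn W (M.map D) := by
  intro β hβ
  obtain ⟨γ, hγ, rfl⟩ := Multiset.mem_map.1 hβ
  exact hc.dW γ (h γ hγ)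

theorem AllIn.replicate {r : Q} (hr : r ∈ W) (n : ℕ) : AllIn W (Multiset.replicate n r) := by
  intro β hβ
  rw [Multiset.eq_of_mem_replicate hβ]; exact hr

/-- Cancel `T` against its dual. -/
theorem cancel_many (hc : Closed W D A) (M T : Multiset Q) (hM : AllIn W M) (hT : AllIn W T)
    (h : A (M + (T + T.map D))) : A M := by
  induction T using Multiset.induction_on generalizing M with
  | empty => simpa using h
  | cons β T ih =>
    have hβ : β ∈ W := hT β (by simp)
    have hT' : AllIn W T := fun γ hγ => hT γ (by simp [hγ])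
    apply ih M hM hT'
    apply hc.con _ β hβ (hM.add (hT'.add (hT'.dual hc)))
    have e : β ::ₘ D β ::ₘ (M + (T + T.map D)) = M + (β ::ₘ T + (β ::ₘ T).map D) := by
      rw [Multiset.map_cons, Multiset.cons_add, Multiset.add_cons, Multiset.add_cons,
        Multiset.add_cons]
    rw [e]; exact h

theorem A_zero (hc : Closed W D A) {r : Q} (hr : r ∈ W) : A 0 :=
  hc.con 0 r hr AllIn.zero (hc.div r hr)

theorem refl_half (hc : Closed W D A) {r : Q} (hr : r ∈ W) (S : Multiset Q) (hS : AllIn W S) :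
    A (S + S.map D) := by
  induction S using Multiset.induction_on with
  | empty => simpa using A_zero hc hr
  | cons β S ih =>
    have hβ : β ∈ W := hS β (by simp)
    have hS' : AllIn W S := fun γ hγ => hS γ (by simp [hγ])
    have h1 := hc.mul _ _ (AllIn.cons hβ (AllIn.cons (hc.dW β hβ) AllIn.zero))
      (hS'.add (hS'.dual hc)) (hc.div β hβ) (ih hS')
    have e : (β ::ₘ D β ::ₘ 0) + (S + S.map D) = β ::ₘ S + (β ::ₘ S).map D := by
      rw [Multiset.map_cons, Multiset.cons_add, Multiset.cons_add, Multiset.cons_add,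
        Multiset.add_cons, zero_add]
    rw [← e]; exact h1

/-- Equivalence of multisets: both are linked by `A`. -/
def SE (D : Q → Q) (A : Multiset Q → Prop) (S U : Multiset Q) : Prop :=
  A (S + U.map D) ∧ A (U + S.map D)

theorem SE.symm {S U : Multiset Q} (h : SE D A S U) : SE D A U S := ⟨h.2, h.1⟩

theorem SE.refl (hc : Closed W D A) {r : Q} (hr : r ∈ W) (S : Multiset Q) (hS : AllIn W S) :
    SE D A S S := ⟨refl_half hc hr S hS, refl_half hc hr S hS⟩

theorem trans_half (hc : Closed W D A) {S T U : Multiset Q} (hS : AllIn W S) (hT : AllIn W T)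
    (hU : AllIn W U) (h1 : A (S + T.map D)) (h2 : A (T + U.map D)) : A (S + U.map D) := by
  apply cancel_many hc _ T (hS.add (hU.dual hc)) hT
  have h3 := hc.mul _ _ (hS.add (hT.dual hc)) (hT.add (hU.dual hc)) h1 h2
  have e : S + T.map D + (T + U.map D) = S + U.map D + (T + T.map D) := by
    abel
  rw [← e]; exact h3

theorem SE.trans (hc : Closed W D A) {S T U : Multiset Q} (hS : AllIn W S) (hT : AllIn W T)
    (hU : AllIn W U) (h1 : SE D A S T) (h2 : SE D A T U) : SE D A S U :=
  ⟨trans_half hc hS hT hU h1.1 h2.1, trans_half hc hU hT hS h2.2 h1.2⟩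

theorem SE.add (hc : Closed W D A) {S S' U U' : Multiset Q} (hS : AllIn W S) (hS' : AllIn W S')
    (hU : AllIn W U) (hU' : AllIn W U') (h1 : SE D A S U) (h2 : SE D A S' U') :
    SE D A (S + S') (U + U') := by
  constructor
  · have h3 := hc.mul _ _ (hS.add (hU.dual hc)) (hS'.add (hU'.dual hc)) h1.1 h2.1
    have e : S + U.map D + (S' + U'.map D) = S + S' + (U + U').map D := by
      rw [Multiset.map_add]; abel
    rw [← e]; exact h3
  · have h3 := hc.mul _ _ (hU.add (hS.dual hc)) (hU'.add (hS'.dual hc)) h1.2 h2.2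
    have e : U + S.map D + (U' + S'.map D) = U + U' + (S + S').map D := by
      rw [Multiset.map_add]; abel
    rw [← e]; exact h3

theorem SE.cancel (hc : Closed W D A) {S T U : Multiset Q} (hS : AllIn W S) (hT : AllIn W T)
    (hU : AllIn W U) (h : SE D A (S + T) (U + T)) : SE D A S U := by
  constructor
  · apply cancel_many hc _ T (hS.add (hU.dual hc)) hT
    have e : S + T + (U + T).map D = S + U.map D + (T + T.map D) := by
      rw [Multiset.map_add]; abel
    rw [← e]; exact h.1
  · apply cancel_many hc _ T (hU.add (hS.dual hc)) hT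
    have e : U + T + (S + T).map D = U + S.map D + (T + T.map D) := by
      rw [Multiset.map_add]; abel
    rw [← e]; exact h.2

/-- Additivity: a product is equivalent to the sum of its factors. -/
theorem SE_union (hc : Closed W D A) {P : Type*} {r : Q} (hr : r ∈ W) (N : ℕ)
    (b : Multiset P → Q) (V : Set P)
    (hbW : ∀ I : Multiset P, (∀ α ∈ I, α ∈ V) → I.card ≤ N → b I ∈ W)
    (hb : ∀ (α : P) (I : Multiset P), α ∈ V → (∀ γ ∈ I, γ ∈ V) → I.card + 1 ≤ N →
      SE D A (b {α} ::ₘ b I ::ₘ 0) (b (α ::ₘ I) ::ₘ r ::ₘ 0))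
    (I : Multiset P) (hI : ∀ α ∈ I, α ∈ V) (k : ℕ) (hk : I.card = k + 1) (hkN : k + 1 ≤ N) :
    SE D A (I.map (fun α => b {α})) (b I ::ₘ Multiset.replicate k r) := by
  induction I using Multiset.induction_on generalizing k with
  | empty => simp at hk
  | cons α I ih =>
    have hα : α ∈ V := hI α (by simp)
    have hI' : ∀ γ ∈ I, γ ∈ V := fun γ hγ => hI γ (by simp [hγ])
    rw [Multiset.card_cons] at hk
    have hcard : I.card = k := by omega
    have hbα : b {α} ∈ W := hbW {α} (by simpa using hα) (by simp; omega)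
    have hbI : b I ∈ W := hbW I hI' (by omega)
    have hbαI : b (α ::ₘ I) ∈ W := hbW _ hI (by rw [Multiset.card_cons]; omega)
    rcases k with _ | k
    · have hI0 : I = 0 := Multiset.card_eq_zero.1 hcard
      subst hI0
      rw [Multiset.map_cons, Multiset.map_zero, Multiset.replicate_zero]
      exact SE.refl hc hr _ (AllIn.cons hbα AllIn.zero)
    · have h1 := ih hI' k hcard (by omega)
      have hmapI : AllIn W (I.map (fun α => b {α})) := by
        intro β hβ
        obtain ⟨γ, hγ, rfl⟩ := Multiset.mem_map.1 hβ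
        exact hbW {γ} (by simpa using hI' γ hγ) (by simp; omega)
      have hrep : AllIn W (Multiset.replicate k r) := AllIn.replicate hr k
      have h2 : SE D A ((b {α} ::ₘ 0) + I.map (fun α => b {α}))
          ((b {α} ::ₘ 0) + (b I ::ₘ Multiset.replicate k r)) :=
        SE.add hc (AllIn.cons hbα AllIn.zero) hmapI (AllIn.cons hbα AllIn.zero)
          (AllIn.cons hbI hrep) (SE.refl hc hr _ (AllIn.cons hbα AllIn.zero)) h1
      have h3 := hb α I hα hI' (by omega)
      have h4 : SE D A ((b {α} ::ₘ b I ::ₘ 0) + Multiset.replicate k r)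
          ((b (α ::ₘ I) ::ₘ r ::ₘ 0) + Multiset.replicate k r) :=
        SE.add hc (AllIn.cons hbα (AllIn.cons hbI AllIn.zero)) hrep
          (AllIn.cons hbαI (AllIn.cons hr AllIn.zero)) hrep h3 (SE.refl hc hr _ hrep)
      have e1 : (b {α} ::ₘ 0) + I.map (fun α => b {α}) = (α ::ₘ I).map (fun α => b {α}) := by
        rw [Multiset.map_cons, Multiset.cons_add, zero_add]
      have e2 : (b {α} ::ₘ 0) + (b I ::ₘ Multiset.replicate k r) =
          (b {α} ::ₘ b I ::ₘ 0) + Multiset.replicate k r := by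
        simp only [Multiset.cons_add, zero_add]
      have e3 : (b (α ::ₘ I) ::ₘ r ::ₘ 0) + Multiset.replicate k r =
          b (α ::ₘ I) ::ₘ Multiset.replicate (k + 1) r := by
        rw [Multiset.replicate_succ]
        simp only [Multiset.cons_add, zero_add]
      rw [e1, e2] at h2
      rw [e3] at h4
      refine SE.trans hc ?_ ?_ ?_ h2 h4
      · rw [← e1]; exact (AllIn.cons hbα AllIn.zero).add hmapI
      · rw [← e2]
        exact (AllIn.cons hbα AllIn.zero).add (AllIn.cons hbI hrep)
      · exact AllIn.cons hbαI (AllIn.replicate hr _)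

end Closure

end Pool.Agent.H924R2
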