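import Mathlib

/-!
Tate classes in exterior algebras and products of Tate classes of degree two.
-/

namespace Pool.Agent.H924R2

open Module
open scoped Pointwise TensorProduct

section Split

variable {Ω V : Type*} [Field Ω] [AddCommGroup V] [Module Ω V]

/-- Degree two classes on which `Fr ^ s` acts as `Q`. -/
def divClasses (Fr : Module.End Ω V) (s : ℕ) (Q : Ω) : Set (ExteriorAlgebra Ω V) :=
  {y | y ∈ ⋀[Ω]^2 V ∧ ExteriorAlgebra.map (Fr ^ s) y = Q • y}

theorem prod_mul_swap (t : List V) (v : V) :
    ∃ e : Ω, (t.map (ExteriorAlgebra.ι Ω)).prod * ExteriorAlgebra.ι Ω v =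
      e • (ExteriorAlgebra.ι Ω v * (t.map (ExteriorAlgebra.ι Ω)).prod) := by
  induction t with
  | nil => exact ⟨1, by simp⟩
  | cons w t ih =>
    obtain ⟨e, he⟩ := ih
    refine ⟨-e, ?_⟩
    rw [List.map_cons, List.prod_cons, mul_assoc, he, mul_smul_comm, ← mul_assoc, ← mul_assoc]
    have h := ExteriorAlgebra.ι_add_mul_swap (R := Ω) w v
    have h2 : ExteriorAlgebra.ι Ω w * ExteriorAlgebra.ι Ω v =
      - (ExteriorAlgebra.ι Ω v * ExteriorAlgebra.ι Ω w) := eq_neg_of_add_eq_zero_left h
    rw [h2, neg_mul, smul_neg, neg_smul]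

theorem pow_apply_eigen (Fr : Module.End Ω V) (s : ℕ) (v : V) (l : Ω) (h : Fr v = l • v) :
    (Fr ^ s) v = l ^ s • v := by
  induction s with
  | zero => simp
  | succ s ih =>
    rw [pow_succ', Module.End.mul_apply, ih, map_smul, h, smul_smul, pow_succ]

/-- A product of eigenvectors whose eigenvalues are symmetric under `l ↦ q / l` lies in the
subalgebra generated by degree two classes. -/
theorem prod_mem_adjoin [DecidableEq Ω] (Fr : Module.End Ω V) (s : ℕ) (q : Ω) (hq : q ≠ 0) :
    ∀ (N : ℕ) (t : List (V × Ω)), t.length = N → (∀ a ∈ t, Fr a.1 = a.2 • a.1) →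
      (∀ a ∈ t, a.2 ≠ 0 ∧ a.2 * a.2 ≠ q) →
      (∀ l : Ω, (Multiset.count l (t.map Prod.snd : Multiset Ω)) =
        (Multiset.count (q / l) (t.map Prod.snd : Multiset Ω))) →
      (t.map (fun a => ExteriorAlgebra.ι Ω a.1)).prod ∈
        Algebra.adjoin Ω (divClasses Fr s (q ^ s)) := by
  intro N
  induction N using Nat.strong_induction_on with
  | _ N ih =>
    intro t hN hev hne hsymm
    rcases t with _ | ⟨⟨v, l⟩, t⟩
    · simp only [List.map_nil, List.prod_nil]
      exact Subalgebra.one_mem _
    · have hl := hne (v, l) (by simp)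
      simp only at hl
      have hcount : 0 < Multiset.count (q / l) (((v, l) :: t).map Prod.snd : Multiset Ω) := by
        rw [← hsymm l, Multiset.count_pos]
        simp
      rw [Multiset.count_pos, Multiset.mem_coe, List.map_cons, List.mem_cons] at hcount
      have hne' : q / l ≠ l := by
        intro h
        rw [div_eq_iff hl.1] at h
        exact hl.2 h.symm
      have hmem : q / l ∈ t.map Prod.snd := by
        rcases hcount with h | h
        · exact absurd h hne'
        · exact h
      rw [List.mem_map] at hmem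
      obtain ⟨⟨v', l'⟩, hv', hl'⟩ : ∃ a ∈ t, a.2 = q / l := hmem
      simp only at hl'
      subst hl'
      obtain ⟨t₁, t₂, rfl⟩ := List.append_of_mem hv'
      -- move `v'` next to `v`
      obtain ⟨e, he⟩ := prod_mul_swap (Ω := Ω) (t₁.map Prod.fst) v'
      have hprod : (((v, l) :: (t₁ ++ (v', q / l) :: t₂)).map
          (fun a => ExteriorAlgebra.ι Ω a.1)).prod =
          e • ((ExteriorAlgebra.ι Ω v * ExteriorAlgebra.ι Ω v') *
            ((t₁ ++ t₂).map (fun a => ExteriorAlgebra.ι Ω a.1)).prod) := by
        simp only [List.map_cons, List.map_append, List.prod_cons, List.prod_append]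
        have e1 : (t₁.map (fun a => ExteriorAlgebra.ι Ω a.1)).prod =
            ((t₁.map Prod.fst).map (ExteriorAlgebra.ι Ω)).prod := by
          rw [List.map_map]; rfl
        rw [e1, ← mul_assoc _ (ExteriorAlgebra.ι Ω v') _, he]
        simp only [mul_assoc, smul_mul_assoc, mul_smul_comm]
      rw [hprod]
      apply Subalgebra.smul_mem
      apply Subalgebra.mul_mem
      · apply Algebra.subset_adjoin
        constructor
        · change _ ∈ (LinearMap.range (ExteriorAlgebra.ι Ω : V →ₗ[Ω] ExteriorAlgebra Ω V)) ^ 2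
          rw [pow_two]
          exact Submodule.mul_mem_mul (LinearMap.mem_range_self _ _) (LinearMap.mem_range_self _ _)
        · have h1 : Fr v = l • v := hev (v, l) (by simp)
          have h2 : Fr v' = (q / l) • v' := hev (v', q / l) (by simp)
          rw [map_mul, ExteriorAlgebra.map_apply_ι, ExteriorAlgebra.map_apply_ι,
            pow_apply_eigen Fr s v l h1, pow_apply_eigen Fr s v' (q / l) h2, map_smul, map_smul,
            smul_mul_smul_comm, ← mul_pow, mul_div_cancel₀ _ hl.1]
      · apply ih (t₁ ++ t₂).length (by rw [← hN]; simp) _ rfl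
        · intro a ha
          apply hev
          simp only [List.mem_append, List.mem_cons] at ha ⊢
          tauto
        · intro a ha
          apply hne
          simp only [List.mem_append, List.mem_cons] at ha ⊢
          tauto
        · intro m
          have h := hsymm m
          simp only [List.map_cons, List.map_append, Multiset.coe_count, List.count_cons,
            List.count_append] at h ⊢
          -- indicator symmetry
          have hqm : ∀ m : Ω, (q / m = l ↔ m = q / l) := by
            intro m
            constructor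
            · intro h
              by_cases hm : m = 0
              · subst hm; rw [div_zero] at h; exact absurd h.symm hl.1
              · rw [div_eq_iff hm] at h
                rw [h, mul_div_cancel_left₀ _ hl.1]
            · intro h
              rw [h, div_div_cancel₀ hq]
          have hqm2 : (q / m = q / l ↔ m = l) := by
            constructor
            · intro h
              have := (hqm m).2
              by_cases hm : m = 0
              · subst hm
                rw [div_zero] at h
                exact absurd h.symm (div_ne_zero hq hl.1)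
              · rw [div_eq_div_iff hm hl.1] at h
                exact (mul_left_cancel₀ hq h).symm
            · rintro rfl; rfl
          have hc1 : (l == m) = decide (m = l) := by
            rw [beq_eq_decide]; congr 1; exact propext eq_comm
          have hc2 : (q / l == m) = decide (m = q / l) := by
            rw [beq_eq_decide]; congr 1; exact propext eq_comm
          have hc3 : (l == q / m) = decide (m = q / l) := by
            rw [beq_eq_decide]; congr 1; rw [← hqm m]; exact propext eq_comm
          have hc4 : (q / l == q / m) = decide (m = l) := by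
            rw [beq_eq_decide]; congr 1; rw [← hqm2]; exact propext eq_comm
          rw [hc1, hc2, hc3, hc4] at h
          omega

/-- Elements of the span of a set of eigenvectors that lie in an eigenspace. -/
theorem mem_span_of_eigen {M : Type*} [AddCommGroup M] [Module Ω M] (T : Module.End Ω M)
    (Γ : Set M) (hΓ : ∀ m ∈ Γ, ∃ c : Ω, T m = c • m) (μ : Ω) (x : M)
    (hx : x ∈ Submodule.span Ω Γ) (hTx : T x = μ • x) :
    x ∈ Submodule.span Ω {m | m ∈ Γ ∧ T m = μ • m} := by
  have h1 : Submodule.span Ω Γ ≤ Submodule.span Ω {m | m ∈ Γ ∧ T m = μ • m} ⊔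
      ⨆ c, ⨆ (_ : c ≠ μ), Module.End.eigenspace T c := by
    rw [Submodule.span_le]
    intro m hm
    obtain ⟨c, hc⟩ := hΓ m hm
    by_cases hcμ : c = μ
    · subst hcμ
      exact Submodule.mem_sup_left (Submodule.subset_span ⟨hm, hc⟩)
    · apply Submodule.mem_sup_right
      apply Submodule.mem_iSup_of_mem c
      apply Submodule.mem_iSup_of_mem hcμ
      exact Module.End.mem_eigenspace_iff.2 hc
  obtain ⟨a, ha, b, hb, hab⟩ := Submodule.mem_sup.1 (h1 hx)
  have haE : a ∈ Module.End.eigenspace T μ := by
    have : Submodule.span Ω {m | m ∈ Γ ∧ T m = μ • m} ≤ Module.End.eigenspace T μ := by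
      rw [Submodule.span_le]
      intro m hm
      exact Module.End.mem_eigenspace_iff.2 hm.2
    exact this ha
  have hbE : b ∈ Module.End.eigenspace T μ := by
    have : b = x - a := by rw [← hab]; abel
    rw [this]
    exact Submodule.sub_mem _ (Module.End.mem_eigenspace_iff.2 hTx) haE
  have hdis := (Module.End.eigenspaces_iSupIndep T) μ
  have hb0 : b = 0 := by
    have := hdis.le_bot (Submodule.mem_inf.2 ⟨hbE, hb⟩)
    simpa using this
  rw [← hab, hb0, add_zero]
  exact ha

/-- The split case: classes in `⋀^(2j)` with eigenvalue `q ^ (s j)` are generated in degree two. -/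
theorem lefschetz_split (Fr : Module.End Ω V) (hspan : ⨆ μ, Module.End.eigenspace Fr μ = ⊤)
    (s : ℕ) (q : Ω) (hq : q ≠ 0)
    (hne : ∀ l, Fr.HasEigenvalue l → l ≠ 0 ∧ l * l ≠ q) (j : ℕ)
    (hsymm : ∀ (Λ : Multiset Ω), Λ.card = 2 * j → (∀ l ∈ Λ, Fr.HasEigenvalue l) →
      Λ.prod ^ s = q ^ (s * j) → ∀ l, ∀ [DecidableEq Ω], Λ.count l = Λ.count (q / l))
    (x : ExteriorAlgebra Ω V) (hx : x ∈ ⋀[Ω]^(2 * j) V)
    (hTx : ExteriorAlgebra.map (Fr ^ s) x = q ^ (s * j) • x) :
    x ∈ Algebra.adjoin Ω (divClasses Fr s (q ^ s)) := by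
  classical
  set S : Set V := {v | ∃ l : Ω, Fr v = l • v} with hS
  have hSspan : Submodule.span Ω S = ⊤ := by
    rw [eq_top_iff, ← hspan]
    apply iSup_le
    intro μ v hv
    apply Submodule.subset_span
    exact ⟨μ, Module.End.mem_eigenspace_iff.1 hv⟩
  have hrange : LinearMap.range (ExteriorAlgebra.ι Ω : V →ₗ[Ω] ExteriorAlgebra Ω V) =
      Submodule.span Ω (ExteriorAlgebra.ι Ω '' S) := by
    rw [← Submodule.map_span, hSspan, Submodule.map_top]
  have hx2 : x ∈ Submodule.span Ω ((ExteriorAlgebra.ι Ω '' S) ^ (2 * j)) := by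
    rw [← Submodule.span_pow, ← hrange]; exact hx
  -- elements of the power set are products of lists
  have hlist : ∀ m ∈ ((ExteriorAlgebra.ι Ω '' S) ^ (2 * j) : Set (ExteriorAlgebra Ω V)),
      ∃ t : List (V × Ω), t.length = 2 * j ∧ (∀ a ∈ t, Fr a.1 = a.2 • a.1) ∧
        m = (t.map (fun a => ExteriorAlgebra.ι Ω a.1)).prod := by
    intro m hm
    rw [Set.mem_pow] at hm
    obtain ⟨f, hf⟩ := hm
    have hch : ∀ i, ∃ a : V × Ω, Fr a.1 = a.2 • a.1 ∧ ExteriorAlgebra.ι Ω a.1 = (f i).1 := by
      intro i
      obtain ⟨v, ⟨l, hl⟩, hv⟩ := (f i).2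
      exact ⟨(v, l), hl, hv⟩
    choose g hg using hch
    refine ⟨List.ofFn g, by simp, ?_, ?_⟩
    · intro a ha
      rw [List.mem_ofFn] at ha
      obtain ⟨i, rfl⟩ := ha
      exact (hg i).1
    · rw [← hf, List.map_ofFn]
      congr 2
      funext i
      exact (hg i).2.symm
  have hTprod : ∀ t : List (V × Ω), (∀ a ∈ t, Fr a.1 = a.2 • a.1) →
      ExteriorAlgebra.map (Fr ^ s) (t.map (fun a => ExteriorAlgebra.ι Ω a.1)).prod =
        ((t.map Prod.snd).prod ^ s) • (t.map (fun a => ExteriorAlgebra.ι Ω a.1)).prod := by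
    intro t
    induction t with
    | nil => intro _; simp
    | cons a t ih =>
      intro h
      rw [List.map_cons, List.prod_cons, map_mul, ExteriorAlgebra.map_apply_ι,
        pow_apply_eigen Fr s a.1 a.2 (h a (by simp)), ih (fun b hb => h b (by simp [hb])),
        map_smul, smul_mul_smul_comm, List.map_cons, List.prod_cons, mul_pow]
  have hx3 := mem_span_of_eigen (ExteriorAlgebra.map (Fr ^ s)).toLinearMap
    ((ExteriorAlgebra.ι Ω '' S) ^ (2 * j)) (by
      intro m hm
      obtain ⟨t, _, ht2, rfl⟩ := hlist m hm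
      exact ⟨_, hTprod t ht2⟩) (q ^ (s * j)) x hx2 hTx
  have hle : Submodule.span Ω {m | m ∈ ((ExteriorAlgebra.ι Ω '' S) ^ (2 * j) :
      Set (ExteriorAlgebra Ω V)) ∧
      (ExteriorAlgebra.map (Fr ^ s)).toLinearMap m = q ^ (s * j) • m} ≤
      Subalgebra.toSubmodule (Algebra.adjoin Ω (divClasses Fr s (q ^ s))) := by
    rw [Submodule.span_le]
    rintro m ⟨hm, hTm⟩
    obtain ⟨t, ht1, ht2, rfl⟩ := hlist m hm
    by_cases h0 : (t.map (fun a => ExteriorAlgebra.ι Ω a.1)).prod = 0
    · rw [h0]; exact Submodule.zero_mem _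
    · have hnz : ∀ a ∈ t, a.1 ≠ 0 := by
        intro a ha ha0
        apply h0
        apply List.prod_eq_zero
        rw [List.mem_map]
        exact ⟨a, ha, by rw [ha0, map_zero]⟩
      have hEV : ∀ a ∈ t, Fr.HasEigenvalue a.2 := by
        intro a ha
        exact Module.End.hasEigenvalue_of_hasEigenvector
          (Module.End.hasEigenvector_iff.2 ⟨Module.End.mem_eigenspace_iff.2 (ht2 a ha), hnz a ha⟩)
      have hprod : (t.map Prod.snd).prod ^ s = q ^ (s * j) := by
        have h1 := hTprod t ht2
        have h2 : ((t.map Prod.snd).prod ^ s) • (t.map (fun a => ExteriorAlgebra.ι Ω a.1)).prod =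
            q ^ (s * j) • (t.map (fun a => ExteriorAlgebra.ι Ω a.1)).prod := by
          rw [← h1]; exact hTm
        exact smul_left_injective _ h0 h2
      apply prod_mem_adjoin Fr s q hq (2 * j) t ht1 ht2
      · intro a ha; exact hne _ (hEV a ha)
      · intro l
        apply hsymm
        · simp [ht1]
        · intro m hm
          rw [Multiset.mem_coe, List.mem_map] at hm
          obtain ⟨a, ha, rfl⟩ := hm
          exact hEV a ha
        · rw [Multiset.prod_coe]; exact hprod
  exact hle hx3

end Split

end Pool.Agent.H924R2
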