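import Mathlib
import Pool.Agent.H924R2.Lefschetz

/-!
Descent of the generation statement from an extension field.
-/

namespace Pool.Agent.H924R2

open Module
open scoped Pointwise TensorProduct

section Contr

variable {E Ω M : Type*} [Field E] [Field Ω] [Algebra E Ω] [AddCommGroup M] [Module E M]

/-- Contraction of a tensor with a linear functional. -/
noncomputable def contr (ρ : Ω →ₗ[E] E) : Ω ⊗[E] M →ₗ[E] M :=
  (TensorProduct.lid E M).toLinearMap ∘ₗ LinearMap.rTensor M ρ

theorem contr_tmul (ρ : Ω →ₗ[E] E) (c : Ω) (m : M) : contr ρ (c ⊗ₜ[E] m) = ρ c • m := by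
  simp [contr]

theorem contr_smul (ρ : Ω →ₗ[E] E) (c : Ω) (t : Ω ⊗[E] M) :
    contr ρ (c • t) = contr (ρ ∘ₗ LinearMap.mulLeft E c) t := by
  induction t using TensorProduct.induction_on with
  | zero => simp
  | tmul a m => rw [TensorProduct.smul_tmul', contr_tmul, contr_tmul]; rfl
  | add a b ha hb => rw [smul_add, map_add, map_add, ha, hb]

theorem contr_mem (W : Submodule E M) (t : Ω ⊗[E] M)
    (ht : t ∈ Submodule.span Ω ((fun w => (1 : Ω) ⊗ₜ[E] w) '' (W : Set M))) :
    ∀ ρ : Ω →ₗ[E] E, contr ρ t ∈ W := by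
  induction ht using Submodule.span_induction with
  | mem x hx =>
    intro ρ
    obtain ⟨w, hw, rfl⟩ := hx
    simp only
    rw [contr_tmul]; exact W.smul_mem _ hw
  | zero => intro ρ; rw [map_zero]; exact W.zero_mem
  | add a b _ _ ha hb => intro ρ; rw [map_add]; exact W.add_mem (ha ρ) (hb ρ)
  | smul c t _ ih => intro ρ; rw [contr_smul]; exact ih _

theorem mem_span_of_contr (W : Submodule E M) (t : Ω ⊗[E] M)
    (h : ∀ ρ : Ω →ₗ[E] E, contr ρ t ∈ W) :
    t ∈ Submodule.span Ω ((fun w => (1 : Ω) ⊗ₜ[E] w) '' (W : Set M)) := by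
  classical
  let b := Module.Basis.ofVectorSpace E Ω
  have h1 : t = ((TensorProduct.equivFinsuppOfBasisLeft b) t).sum fun i n ↦ b i ⊗ₜ[E] n := by
    rw [← TensorProduct.equivFinsuppOfBasisLeft_symm_apply, LinearEquiv.symm_apply_apply]
  rw [h1]
  apply Submodule.sum_mem
  intro i _
  have h2 : (TensorProduct.equivFinsuppOfBasisLeft b) t i ∈ W := by
    rw [TensorProduct.equivFinsuppOfBasisLeft_apply]
    exact h (b.coord i)
  have h3 : b i ⊗ₜ[E] (TensorProduct.equivFinsuppOfBasisLeft b) t i =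
      (b i) • ((1 : Ω) ⊗ₜ[E] (TensorProduct.equivFinsuppOfBasisLeft b) t i) := by
    rw [TensorProduct.smul_tmul', smul_eq_mul, mul_one]
  show b i ⊗ₜ[E] (TensorProduct.equivFinsuppOfBasisLeft b) t i ∈ _
  rw [h3]
  apply Submodule.smul_mem
  apply Submodule.subset_span
  exact ⟨_, h2, rfl⟩

theorem contr_baseChange (ρ : Ω →ₗ[E] E) (S : M →ₗ[E] M) (t : Ω ⊗[E] M) :
    contr ρ (S.baseChange Ω t) = S (contr ρ t) := by
  induction t using TensorProduct.induction_on with
  | zero => simp
  | tmul a m => rw [LinearMap.baseChange_tmul, contr_tmul, contr_tmul, map_smul]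
  | add a b ha hb => rw [map_add, map_add, map_add, map_add, ha, hb]

theorem exists_functional (E Ω : Type*) [Field E] [Field Ω] [Algebra E Ω] :
    ∃ ρ : Ω →ₗ[E] E, ρ 1 = 1 := by
  obtain ⟨g, hg⟩ := (Algebra.linearMap E Ω).exists_leftInverse_of_injective
    (LinearMap.ker_eq_bot.2 (algebraMap E Ω).injective)
  refine ⟨g, ?_⟩
  have := LinearMap.congr_fun hg 1
  simpa using this

end Contr

section BaseChange

variable {E Ω V : Type*} [Field E] [CharZero E] [Field Ω] [Algebra E Ω] [AddCommGroup V]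
  [Module E V]

omit [CharZero E] in
theorem iota_bc_anticomm (a b : Ω ⊗[E] V) :
    (ExteriorAlgebra.ι E (M := V)).baseChange Ω a * (ExteriorAlgebra.ι E (M := V)).baseChange Ω b +
    (ExteriorAlgebra.ι E (M := V)).baseChange Ω b * (ExteriorAlgebra.ι E (M := V)).baseChange Ω a
      = 0 := by
  induction a using TensorProduct.induction_on with
  | zero => simp
  | add a₁ a₂ h₁ h₂ =>
    rw [map_add, add_mul, mul_add]
    rw [← add_zero (0 : Ω ⊗[E] ExteriorAlgebra E V)]
    nth_rewrite 1 [← h₁]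
    rw [← h₂]
    abel
  | tmul c v =>
    induction b using TensorProduct.induction_on with
    | zero => simp
    | add b₁ b₂ h₁ h₂ =>
      rw [map_add, add_mul, mul_add]
      rw [← add_zero (0 : Ω ⊗[E] ExteriorAlgebra E V)]
      nth_rewrite 1 [← h₁]
      rw [← h₂]
      abel
    | tmul d w =>
      rw [LinearMap.baseChange_tmul, LinearMap.baseChange_tmul,
        Algebra.TensorProduct.tmul_mul_tmul, Algebra.TensorProduct.tmul_mul_tmul, mul_comm d c,
        ← TensorProduct.tmul_add, ExteriorAlgebra.ι_add_mul_swap, TensorProduct.tmul_zero]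

theorem iota_bc_sq (a : Ω ⊗[E] V) :
    (ExteriorAlgebra.ι E (M := V)).baseChange Ω a * (ExteriorAlgebra.ι E (M := V)).baseChange Ω a
      = 0 := by
  have h := iota_bc_anticomm a a
  rw [← two_smul Ω] at h
  have h2 : (2 : Ω) ≠ 0 := by
    have : CharZero Ω := charZero_of_injective_algebraMap (algebraMap E Ω).injective
    exact two_ne_zero
  exact (smul_eq_zero.1 h).resolve_left h2

/-- From the exterior algebra of the base change to the base change of the exterior algebra. -/
noncomputable def toBC : ExteriorAlgebra Ω (Ω ⊗[E] V) →ₐ[Ω] Ω ⊗[E] ExteriorAlgebra E V :=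
  ExteriorAlgebra.lift Ω ⟨(ExteriorAlgebra.ι E (M := V)).baseChange Ω, iota_bc_sq⟩

theorem toBC_ι (a : Ω ⊗[E] V) : toBC (ExteriorAlgebra.ι Ω a) =
    (ExteriorAlgebra.ι E (M := V)).baseChange Ω a := by
  rw [toBC, ExteriorAlgebra.lift_ι_apply]

/-- The canonical map on exterior algebras. -/
noncomputable def fromE : ExteriorAlgebra E V →ₐ[E] ExteriorAlgebra Ω (Ω ⊗[E] V) :=
  ExteriorAlgebra.lift E
    ⟨((ExteriorAlgebra.ι Ω (M := Ω ⊗[E] V)).restrictScalars E) ∘ₗ (TensorProduct.mk E Ω V 1),
      fun m => by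
        simp only [LinearMap.comp_apply, LinearMap.restrictScalars_apply]
        exact ExteriorAlgebra.ι_sq_zero _⟩

omit [CharZero E] in
theorem fromE_ι (v : V) : fromE (Ω := Ω) (ExteriorAlgebra.ι E v) =
    ExteriorAlgebra.ι Ω ((1 : Ω) ⊗ₜ[E] v) := by
  rw [fromE, ExteriorAlgebra.lift_ι_apply]
  rfl

theorem toBC_fromE (x : ExteriorAlgebra E V) : toBC (fromE (Ω := Ω) x) = (1 : Ω) ⊗ₜ[E] x := by
  have h : ((toBC (E := E) (Ω := Ω) (V := V)).restrictScalars E).comp (fromE (Ω := Ω)) =
      Algebra.TensorProduct.includeRight := by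
    apply ExteriorAlgebra.hom_ext
    ext v
    simp only [LinearMap.comp_apply, AlgHom.toLinearMap_apply, AlgHom.comp_apply,
      AlgHom.restrictScalars_apply, fromE_ι, toBC_ι, LinearMap.baseChange_tmul,
      Algebra.TensorProduct.includeRight_apply]
  exact AlgHom.congr_fun h x

theorem toBC_map (F : V →ₗ[E] V) (x : ExteriorAlgebra Ω (Ω ⊗[E] V)) :
    toBC (ExteriorAlgebra.map (F.baseChange Ω) x) =
      (ExteriorAlgebra.map F).toLinearMap.baseChange Ω (toBC x) := by
  have h : (toBC (E := E) (Ω := Ω) (V := V)).comp (ExteriorAlgebra.map (F.baseChange Ω)) =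
      (Algebra.TensorProduct.map (AlgHom.id Ω Ω) (ExteriorAlgebra.map F)).comp toBC := by
    apply ExteriorAlgebra.hom_ext
    ext v
    simp [toBC_ι]
  exact AlgHom.congr_fun h x

omit [CharZero E] in
theorem fromE_map (F : V →ₗ[E] V) (x : ExteriorAlgebra E V) :
    fromE (Ω := Ω) (ExteriorAlgebra.map F x) =
      ExteriorAlgebra.map (F.baseChange Ω) (fromE x) := by
  have h : (fromE (E := E) (Ω := Ω) (V := V)).comp (ExteriorAlgebra.map F) =
      ((ExteriorAlgebra.map (F.baseChange Ω)).restrictScalars E).comp fromE := by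
    apply ExteriorAlgebra.hom_ext
    ext v
    simp [fromE_ι]
  exact AlgHom.congr_fun h x

omit [CharZero E] in
theorem fromE_mem (n : ℕ) (x : ExteriorAlgebra E V) (hx : x ∈ ⋀[E]^n V) :
    fromE (Ω := Ω) x ∈ ⋀[Ω]^n (Ω ⊗[E] V) := by
  induction hx using Submodule.pow_induction_on_left' with
  | algebraMap r =>
    rw [AlgHom.commutes]
    show _ ∈ (LinearMap.range (ExteriorAlgebra.ι Ω (M := Ω ⊗[E] V))) ^ 0
    rw [pow_zero, IsScalarTower.algebraMap_apply E Ω]
    exact Submodule.algebraMap_mem _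
  | add x y i hx hy h1 h2 => rw [map_add]; exact Submodule.add_mem _ h1 h2
  | mem_mul m hm i x hx ih =>
    obtain ⟨v, rfl⟩ := hm
    rw [map_mul, fromE_ι]
    show _ ∈ (LinearMap.range (ExteriorAlgebra.ι Ω (M := Ω ⊗[E] V))) ^ (i + 1)
    rw [pow_succ']
    exact Submodule.mul_mem_mul (LinearMap.mem_range_self _ _) ih

theorem toBC_mem_two (y : ExteriorAlgebra Ω (Ω ⊗[E] V)) (hy : y ∈ ⋀[Ω]^2 (Ω ⊗[E] V)) :
    toBC y ∈ Submodule.span Ω
      ((fun w => (1 : Ω) ⊗ₜ[E] w) '' ((⋀[E]^2 V : Submodule E (ExteriorAlgebra E V)) :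
        Set (ExteriorAlgebra E V))) := by
  have hy' : y ∈ (LinearMap.range (ExteriorAlgebra.ι Ω (M := Ω ⊗[E] V))) *
      (LinearMap.range (ExteriorAlgebra.ι Ω (M := Ω ⊗[E] V))) := by
    rw [← pow_two]; exact hy
  refine Submodule.mul_induction_on hy' ?_ ?_
  · rintro _ ⟨a, rfl⟩ _ ⟨b, rfl⟩
    rw [map_mul, toBC_ι, toBC_ι]
    induction a using TensorProduct.induction_on with
    | zero => rw [map_zero, zero_mul]; exact Submodule.zero_mem _
    | add a₁ a₂ h₁ h₂ => rw [map_add, add_mul]; exact Submodule.add_mem _ h₁ h₂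
    | tmul c v =>
      induction b using TensorProduct.induction_on with
      | zero => rw [map_zero, mul_zero]; exact Submodule.zero_mem _
      | add b₁ b₂ h₁ h₂ => rw [map_add, mul_add]; exact Submodule.add_mem _ h₁ h₂
      | tmul d w =>
        rw [LinearMap.baseChange_tmul, LinearMap.baseChange_tmul,
          Algebra.TensorProduct.tmul_mul_tmul]
        have h3 : (c * d) ⊗ₜ[E] (ExteriorAlgebra.ι E v * ExteriorAlgebra.ι E w) =
            (c * d) • ((1 : Ω) ⊗ₜ[E] (ExteriorAlgebra.ι E v * ExteriorAlgebra.ι E w)) := by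
          rw [TensorProduct.smul_tmul', smul_eq_mul, mul_one]
        rw [h3]
        apply Submodule.smul_mem
        apply Submodule.subset_span
        refine ⟨_, ?_, rfl⟩
        show _ ∈ (LinearMap.range (ExteriorAlgebra.ι E (M := V))) ^ 2
        rw [pow_two]
        exact Submodule.mul_mem_mul (LinearMap.mem_range_self _ _) (LinearMap.mem_range_self _ _)
  · intro a b ha hb
    rw [map_add]; exact Submodule.add_mem _ ha hb

/-- Descent of membership in the subalgebra generated by degree two classes. -/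
theorem descent (Fr : Module.End E V) (s : ℕ) (Q : E) (x : ExteriorAlgebra E V)
    (hx : fromE (Ω := Ω) x ∈ Algebra.adjoin Ω
      (divClasses (Fr.baseChange Ω) s (algebraMap E Ω Q))) :
    x ∈ Algebra.adjoin E (divClasses Fr s Q) := by
  classical
  set D := Algebra.adjoin E (divClasses Fr s Q) with hD
  -- the base change of D
  let 𝒟 : Subalgebra Ω (Ω ⊗[E] ExteriorAlgebra E V) :=
    (Algebra.TensorProduct.map (AlgHom.id Ω Ω) D.val).range
  have h𝒟 : ∀ d ∈ D, (1 : Ω) ⊗ₜ[E] d ∈ 𝒟 := by
    intro d hd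
    exact ⟨(1 : Ω) ⊗ₜ[E] (⟨d, hd⟩ : D), by simp⟩
  have h𝒟c : ∀ t ∈ 𝒟, ∀ ρ : Ω →ₗ[E] E, contr ρ t ∈ Subalgebra.toSubmodule D := by
    rintro t ⟨u, rfl⟩ ρ
    induction u using TensorProduct.induction_on with
    | zero => simp
    | add a b ha hb =>
      have : (Algebra.TensorProduct.map (AlgHom.id Ω Ω) D.val).toRingHom (a + b) =
        (Algebra.TensorProduct.map (AlgHom.id Ω Ω) D.val).toRingHom a +
        (Algebra.TensorProduct.map (AlgHom.id Ω Ω) D.val).toRingHom b := map_add _ _ _
      rw [this, map_add]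
      exact Submodule.add_mem _ ha hb
    | tmul c d =>
      have : (Algebra.TensorProduct.map (AlgHom.id Ω Ω) D.val).toRingHom (c ⊗ₜ[E] d) =
        c ⊗ₜ[E] (d : ExteriorAlgebra E V) := by simp
      rw [this, contr_tmul]
      exact Submodule.smul_mem _ _ d.2
  have h1 : toBC (fromE (Ω := Ω) x) ∈ 𝒟 := by
    have h2 : Algebra.adjoin Ω (divClasses (Fr.baseChange Ω) s (algebraMap E Ω Q)) ≤
        𝒟.comap toBC := by
      rw [Algebra.adjoin_le_iff]
      rintro y ⟨hy1, hy2⟩
      show toBC y ∈ 𝒟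
      -- contraction of `toBC y` are divisor classes
      have h3 := contr_mem _ _ (toBC_mem_two y hy1)
      have h4 : ∀ ρ : Ω →ₗ[E] E, contr ρ (toBC y) ∈ Subalgebra.toSubmodule D := by
        intro ρ
        apply Algebra.subset_adjoin
        refine ⟨h3 ρ, ?_⟩
        have h5 : (Fr.baseChange Ω) ^ s = (Fr ^ s).baseChange Ω := by
          rw [LinearMap.baseChange_pow]
        rw [h5] at hy2
        have h6 := congrArg (toBC (E := E) (Ω := Ω) (V := V)) hy2
        rw [toBC_map, map_smul] at h6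
        have h7 := congrArg (contr ρ) h6
        rw [contr_baseChange] at h7
        rw [algebraMap_smul, map_smul] at h7
        exact h7
      have h8 := mem_span_of_contr _ _ h4
      have h9 : Submodule.span Ω ((fun w => (1 : Ω) ⊗ₜ[E] w) ''
          ((Subalgebra.toSubmodule D : Submodule E (ExteriorAlgebra E V)) :
            Set (ExteriorAlgebra E V))) ≤ Subalgebra.toSubmodule 𝒟 := by
        rw [Submodule.span_le]
        rintro _ ⟨d, hd, rfl⟩
        exact h𝒟 d hd
      exact h9 h8
    exact h2 hx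
  rw [toBC_fromE] at h1
  obtain ⟨ρ, hρ⟩ := exists_functional E Ω
  have h2 := h𝒟c _ h1 ρ
  rw [contr_tmul, hρ, one_smul] at h2
  exact h2

end BaseChange

/-- Generation in degree two over an arbitrary field of characteristic zero. -/
theorem lefschetz_general {E V : Type*} [Field E] [CharZero E] [AddCommGroup V] [Module E V]
    [FiniteDimensional E V] (Fr : Module.End E V) (P : Polynomial E) (hP : P.Separable)
    (hFr : Polynomial.aeval Fr P = 0) (s q j : ℕ) (hq : q ≠ 0)
    (hne : ∀ l : AlgebraicClosure E, Polynomial.aeval l P = 0 → l ≠ 0 ∧ l * l ≠ q)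
    (hsymm : ∀ (Λ : Multiset (AlgebraicClosure E)), Λ.card = 2 * j →
      (∀ l ∈ Λ, Polynomial.aeval l P = 0) →
      Λ.prod ^ s = (q : AlgebraicClosure E) ^ (s * j) →
      ∀ l, ∀ [DecidableEq (AlgebraicClosure E)], Λ.count l = Λ.count (q / l))
    (x : ExteriorAlgebra E V) (hx : x ∈ ⋀[E]^(2 * j) V)
    (hTx : ExteriorAlgebra.map (Fr ^ s) x = (q : E) ^ (s * j) • x) :
    x ∈ Algebra.adjoin E (divClasses Fr s ((q : E) ^ s)) := by
  classical
  let Ω := AlgebraicClosure E
  have : CharZero Ω := charZero_of_injective_algebraMap (algebraMap E Ω).injective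
  apply descent (Ω := Ω)
  rw [map_pow, map_natCast]
  set F' : Module.End Ω (Ω ⊗[E] V) := Fr.baseChange Ω with hF'
  have hF'P : Polynomial.aeval F' (P.map (algebraMap E Ω)) = 0 := by
    rw [hF', Polynomial.aeval_map_algebraMap]
    have : Polynomial.aeval (Fr.baseChange Ω) P = (Polynomial.aeval Fr P).baseChange Ω := by
      have h0 := Polynomial.aeval_algHom_apply (Module.End.baseChangeHom E Ω V) Fr P
      exact h0
    rw [this, hFr, LinearMap.baseChange_zero]
  have hss : F'.IsSemisimple := by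
    apply Module.End.isSemisimple_of_squarefree_aeval_eq_zero (p := P.map (algebraMap E Ω)) _ hF'P
    exact (hP.map).squarefree
  have hspan : ⨆ μ, Module.End.eigenspace F' μ = ⊤ := by
    rw [← Module.End.iSup_maxGenEigenspace_eq_top F']
    congr 1
    funext μ
    exact (hss.isFinitelySemisimple.maxGenEigenspace_eq_eigenspace μ).symm
  have hroot : ∀ l, F'.HasEigenvalue l → Polynomial.aeval l P = 0 := by
    intro l hl
    have h1 := Module.End.aeval_apply_of_hasEigenvector (hl.exists_hasEigenvector.choose_spec)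
      (p := P.map (algebraMap E Ω))
    rw [hF'P] at h1
    have h2 := (hl.exists_hasEigenvector.choose_spec).2
    rw [LinearMap.zero_apply] at h1
    have h3 := (smul_eq_zero.1 h1.symm).resolve_right h2
    rwa [Polynomial.eval_map_algebraMap] at h3
  apply lefschetz_split F' hspan s (q : Ω) (by exact_mod_cast hq) (fun l hl => hne l (hroot l hl)) j
  · intro Λ h1 h2 h3 l _
    exact hsymm Λ h1 (fun m hm => hroot m (h2 m hm)) h3 l
  · exact fromE_mem _ _ hx
  · rw [hF', ← LinearMap.baseChange_pow, ← fromE_map]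
    rw [hTx, map_smul]
    rw [← Nat.cast_pow, ← Nat.cast_pow, Nat.cast_smul_eq_nsmul, Nat.cast_smul_eq_nsmul]

end Pool.Agent.H924R2
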