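import Mathlib
import Pool.Agent.H924R2.CodimTwo

/-!
Every product relation between Weil numbers is a consequence of relations of length four.
-/

namespace Pool.Agent.H924R2

theorem four_core (q : ℕ) (hq0 : 0 < q) (K₀ : Subfield (AlgebraicClosure ℚ))
    (n j : ℕ) (hn : 0 < n) (hj : 0 < j) (M : Multiset (AlgebraicClosure ℚ))
    (hM : ∀ α ∈ M, IsWeil q α ∧ α ∈ K₀) (hcard : M.card = 2 * j)
    (hprod : M.prod = (q : AlgebraicClosure ℚ) ^ j)
    (W : Set (AlgebraicClosure ℚ)) (hW : W = {β | IsWeil (q ^ (4 * j * n)) β ∧ β ∈ K₀})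
    (D : AlgebraicClosure ℚ → AlgebraicClosure ℚ)
    (hD : D = fun β => (q : AlgebraicClosure ℚ) ^ (4 * j * n) / β)
    (A : Multiset (AlgebraicClosure ℚ) → Prop) (hc : Closed W D A)
    (hfour : ∀ β₁ ∈ W, ∀ β₂ ∈ W, ∀ β₃ ∈ W, β₁ * β₂ * β₃ = (q : AlgebraicClosure ℚ) ^ (6 * j * n) →
      (∃ γ ∈ W, β₁ ^ n = (q : AlgebraicClosure ℚ) ^ (2 * j * n * (n - 1)) * γ) →
      A ((q : AlgebraicClosure ℚ) ^ (2 * j * n) ::ₘ β₁ ::ₘ β₂ ::ₘ β₃ ::ₘ 0)) :
    A (M.map (fun α => α ^ (4 * j * n))) := by
  classical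
  have hqne : (q : AlgebraicClosure ℚ) ≠ 0 := by exact_mod_cast hq0.ne'
  obtain ⟨n', hn'⟩ : ∃ n', n' = 2 * j * n := ⟨_, rfl⟩
  have hn'0 : 0 < n' := by rw [hn']; positivity
  have hle : 2 * j ≤ n' := by rw [hn']; exact Nat.le_mul_of_pos_right _ hn
  have hdeg : 4 * j * n = 2 * n' := by rw [hn']; ring
  obtain ⟨r, hr⟩ : ∃ r, r = (q : AlgebraicClosure ℚ) ^ n' := ⟨_, rfl⟩
  have hrne : r ≠ 0 := by rw [hr]; exact pow_ne_zero _ hqne
  have hrr : r * r = (q : AlgebraicClosure ℚ) ^ (4 * j * n) := by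
    rw [hr, hdeg, ← pow_add]; congr 1; ring
  have hW0 : ∀ β ∈ W, β ≠ 0 := by
    intro β hβ
    rw [hW] at hβ
    exact IsWeil.ne_zero (pow_pos hq0 _) hβ.1
  have hDapp : ∀ β, D β = r * r / β := by intro β; rw [hD, hrr]
  have hrW : r ∈ W := by
    rw [hW]
    refine ⟨?_, ?_⟩
    · apply IsWeil.sqrt
      rw [pow_two, hrr]; push_cast; rfl
    · rw [hr]; exact pow_mem (natCast_mem K₀ q) _
  have hDr : D r = r := by
    rw [hDapp, mul_div_assoc, div_self hrne, mul_one]
  have hfour' : ∀ β₁ ∈ W, ∀ β₂ ∈ W, ∀ β₃ ∈ W, β₁ * β₂ * β₃ = r ^ 3 →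
      (∃ γ ∈ W, β₁ ^ n = r ^ (n - 1) * γ) →
      A (r ::ₘ β₁ ::ₘ β₂ ::ₘ β₃ ::ₘ 0) := by
    intro β₁ h1 β₂ h2 β₃ h3 h hγ
    have e1 : (q : AlgebraicClosure ℚ) ^ (2 * j * n) = r := by rw [hr, hn']
    rw [← e1]
    apply hfour β₁ h1 β₂ h2 β₃ h3
    · rw [h, hr, ← pow_mul]; congr 1; rw [hn']; ring
    · obtain ⟨γ, hγW, hγ⟩ := hγ
      refine ⟨γ, hγW, ?_⟩
      rw [hγ, hr, ← pow_mul, hn']
  -- the elements attached to multisets
  let V : Set (AlgebraicClosure ℚ) := {α | IsWeil q α ∧ α ∈ K₀}
  let b : Multiset (AlgebraicClosure ℚ) → AlgebraicClosure ℚ :=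
    fun I => I.prod ^ 2 * (q : AlgebraicClosure ℚ) ^ (n' - I.card)
  have hbdef : ∀ I, b I = I.prod ^ 2 * (q : AlgebraicClosure ℚ) ^ (n' - I.card) := fun I => rfl
  have hbW : ∀ I : Multiset (AlgebraicClosure ℚ), (∀ α ∈ I, α ∈ V) → I.card ≤ n' → b I ∈ W := by
    intro I hI hcardI
    rw [hW]
    constructor
    · have h1 : IsWeil (q ^ I.card) I.prod := IsWeil.prod I (fun α hα => (hI α hα).1)
      have h2 := h1.pow 2
      have h3 : IsWeil (q ^ (2 * (n' - I.card))) ((q : AlgebraicClosure ℚ) ^ (n' - I.card)) := by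
        apply IsWeil.sqrt
        rw [← pow_mul]; push_cast; congr 1; ring
      have h4 := h2.mul_aux h3
      have e : (q ^ I.card) ^ 2 * q ^ (2 * (n' - I.card)) = q ^ (4 * j * n) := by
        rw [← pow_mul, ← pow_add, hdeg]
        congr 1
        omega
      rw [e] at h4
      exact h4
    · apply mul_mem
      · apply pow_mem
        exact multiset_prod_mem _ (fun α hα => (hI α hα).2)
      · exact pow_mem (natCast_mem K₀ q) _
  have hbmul : ∀ (α : AlgebraicClosure ℚ) (I : Multiset (AlgebraicClosure ℚ)), I.card + 1 ≤ n' →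
      b {α} * b I = b (α ::ₘ I) * r := by
    intro α I hI
    rw [hbdef, hbdef, hbdef, hr, Multiset.prod_singleton, Multiset.card_singleton,
      Multiset.prod_cons, Multiset.card_cons]
    have e : (q : AlgebraicClosure ℚ) ^ (n' - 1) * (q : AlgebraicClosure ℚ) ^ (n' - I.card) =
        (q : AlgebraicClosure ℚ) ^ (n' - (I.card + 1)) * (q : AlgebraicClosure ℚ) ^ n' := by
      rw [← pow_add, ← pow_add]; congr 1; omega
    linear_combination (α ^ 2 * I.prod ^ 2) * e
  -- the small element
  have hsmall : ∀ α ∈ V, ∃ γ ∈ W, (b {α}) ^ n = r ^ (n - 1) * γ := by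
    intro α hα
    have hnn' : n ≤ n' := by rw [hn']; exact Nat.le_mul_of_pos_left _ (by positivity)
    refine ⟨α ^ (2 * n) * (q : AlgebraicClosure ℚ) ^ (n' - n), ?_, ?_⟩
    · rw [hW]
      constructor
      · have h1 := hα.1.pow (2 * n)
        have h3 : IsWeil (q ^ (2 * (n' - n))) ((q : AlgebraicClosure ℚ) ^ (n' - n)) := by
          apply IsWeil.sqrt
          rw [← pow_mul]; push_cast; congr 1; ring
        have h4 := h1.mul_aux h3
        have e : q ^ (2 * n) * q ^ (2 * (n' - n)) = q ^ (4 * j * n) := by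
          rw [← pow_add, hdeg]; congr 1; omega
        rw [e] at h4
        exact h4
      · exact mul_mem (pow_mem hα.2 _) (pow_mem (natCast_mem K₀ q) _)
    · rw [hbdef, Multiset.prod_singleton, Multiset.card_singleton, hr, mul_pow, ← pow_mul,
        ← pow_mul, ← pow_mul]
      have e : (q : AlgebraicClosure ℚ) ^ ((n' - 1) * n) =
          (q : AlgebraicClosure ℚ) ^ (n' * (n - 1)) * (q : AlgebraicClosure ℚ) ^ (n' - n) := by
        rw [← pow_add]; congr 1
        obtain ⟨u, hu⟩ : ∃ u, n' = n + u := ⟨n' - n, by omega⟩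
        obtain ⟨v, hv⟩ : ∃ v, n = v + 1 := ⟨n - 1, by omega⟩
        subst hv
        have e1 : n' - 1 = v + u := by omega
        have e2 : n' - (v + 1) = u := by omega
        rw [e1, e2, Nat.add_sub_cancel, hu]
        ring
      rw [e]; ring
  have hb : ∀ (α : AlgebraicClosure ℚ) (I : Multiset (AlgebraicClosure ℚ)), α ∈ V →
      (∀ γ ∈ I, γ ∈ V) → I.card + 1 ≤ n' →
      SE D A (b {α} ::ₘ b I ::ₘ 0) (b (α ::ₘ I) ::ₘ r ::ₘ 0) := by
    intro α I hα hI hcardI
    have hbα : b {α} ∈ W := hbW {α} (by simpa using hα) (by simp; omega)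
    have hbI : b I ∈ W := hbW I hI (by omega)
    have hbαI : b (α ::ₘ I) ∈ W := hbW _ (by
      intro γ hγ
      rcases Multiset.mem_cons.1 hγ with h | h
      · rw [h]; exact hα
      · exact hI γ h) (by rw [Multiset.card_cons]; omega)
    have hm' := hbmul α I hcardI
    have hne1 := hW0 _ hbα
    have hne2 := hW0 _ hbI
    have hne3 := hW0 _ hbαI
    obtain ⟨γ, hγW, hγ⟩ := hsmall α hα
    constructor
    · have h1 := hfour' (b {α}) hbα (b I) hbI (D (b (α ::ₘ I))) (hc.dW _ hbαI) (by
        rw [hDapp, hm']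
        field_simp) ⟨γ, hγW, hγ⟩
      have e : (b {α} ::ₘ b I ::ₘ 0) + (b (α ::ₘ I) ::ₘ r ::ₘ 0).map D =
          r ::ₘ b {α} ::ₘ b I ::ₘ D (b (α ::ₘ I)) ::ₘ 0 := by
        rw [Multiset.map_cons, Multiset.map_cons, Multiset.map_zero, hDr]
        simp only [Multiset.cons_add, zero_add]
        rw [Multiset.cons_swap _ r, Multiset.cons_swap _ r, Multiset.cons_swap _ r]
      rw [e]; exact h1
    · have h1 := hfour' (D (b {α})) (hc.dW _ hbα) (D (b I)) (hc.dW _ hbI) (b (α ::ₘ I)) hbαI (by
        rw [hDapp, hDapp]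
        have e2 : (r * r / b {α}) * (r * r / b I) * b (α ::ₘ I) =
          b (α ::ₘ I) * r ^ 4 / (b {α} * b I) := by
          field_simp
        rw [e2, hm']
        field_simp) ⟨D γ, hc.dW _ hγW, by
          have hγ0 := hW0 _ hγW
          rw [hDapp, hDapp, div_pow, hγ, mul_pow, ← pow_add]
          obtain ⟨v, hv⟩ : ∃ v, n = v + 1 := ⟨n - 1, by omega⟩
          rw [hv, Nat.add_sub_cancel]
          field_simp
          ring⟩
      have e : (b (α ::ₘ I) ::ₘ r ::ₘ 0) + (b {α} ::ₘ b I ::ₘ 0).map D =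
          r ::ₘ D (b {α}) ::ₘ D (b I) ::ₘ b (α ::ₘ I) ::ₘ 0 := by
        rw [Multiset.map_cons, Multiset.map_cons, Multiset.map_zero]
        simp only [Multiset.cons_add, zero_add]
        rw [Multiset.cons_swap _ r, Multiset.cons_swap _ (D (b {α})),
          Multiset.cons_swap _ (D (b I))]
      rw [e]; exact h1
  have hMV : ∀ α ∈ M, α ∈ V := hM
  have hbrep : ∀ α, b (Multiset.replicate n' α) = α ^ (4 * j * n) := by
    intro α
    rw [hbdef, Multiset.prod_replicate, Multiset.card_replicate, Nat.sub_self, pow_zero, mul_one,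
      ← pow_mul, hdeg, mul_comm]
  have hpowW : ∀ α ∈ V, α ^ (4 * j * n) ∈ W := by
    intro α hα
    rw [← hbrep]
    apply hbW _ _ (by rw [Multiset.card_replicate])
    intro γ hγ
    rw [Multiset.eq_of_mem_replicate hγ]; exact hα
  -- first equivalence: each power
  have hstep : ∀ S : Multiset (AlgebraicClosure ℚ), (∀ α ∈ S, α ∈ V) →
      SE D A (S.map (fun α => α ^ (4 * j * n)) + Multiset.replicate (S.card * (n' - 1)) r)
        (n' • S.map (fun α => b {α})) := by
    intro S
    induction S using Multiset.induction_on with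
    | empty =>
      intro _
      simp only [Multiset.map_zero, Multiset.card_zero, zero_mul, Multiset.replicate_zero,
        smul_zero, add_zero]
      exact SE.refl hc hrW _ AllIn.zero
    | cons α S ih =>
      intro hS
      have hα : α ∈ V := hS α (by simp)
      have hS' : ∀ γ ∈ S, γ ∈ V := fun γ hγ => hS γ (by simp [hγ])
      have h1 := ih hS'
      have hrepα : ∀ γ ∈ Multiset.replicate n' α, γ ∈ V := by
        intro γ hγ
        rw [Multiset.eq_of_mem_replicate hγ]; exact hα
      have h2 := SE_union hc hrW n' b V hbW hb (Multiset.replicate n' α) hrepα (n' - 1)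
        (by rw [Multiset.card_replicate]; omega) (by omega)
      rw [hbrep, Multiset.map_replicate] at h2
      have hbα : b {α} ∈ W := hbW {α} (by simpa using hα) (by simp; omega)
      have hpowα : α ^ (4 * j * n) ∈ W := hpowW α hα
      have hSb : AllIn W (n' • S.map (fun α => b {α})) := by
        intro β hβ
        have hβ2 := Multiset.mem_of_mem_nsmul hβ
        obtain ⟨γ, hγ, rfl⟩ := Multiset.mem_map.1 hβ2
        exact hbW {γ} (by simpa using hS' γ hγ) (by simp; omega)
      have hSp : AllIn W (S.map (fun α => α ^ (4 * j * n)) +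
          Multiset.replicate (S.card * (n' - 1)) r) := by
        apply AllIn.add _ (AllIn.replicate hrW _)
        intro β hβ
        obtain ⟨γ, hγ, rfl⟩ := Multiset.mem_map.1 hβ
        exact hpowW γ (hS' γ hγ)
      have h3 := SE.add hc (AllIn.cons hpowα (AllIn.replicate hrW (n' - 1))) hSp
        (AllIn.replicate hbα n') hSb h2.symm h1
      have e1 : α ^ (4 * j * n) ::ₘ Multiset.replicate (n' - 1) r +
          (S.map (fun α => α ^ (4 * j * n)) + Multiset.replicate (S.card * (n' - 1)) r) =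
          (α ::ₘ S).map (fun α => α ^ (4 * j * n)) +
            Multiset.replicate ((α ::ₘ S).card * (n' - 1)) r := by
        rw [Multiset.map_cons, Multiset.card_cons, add_mul, one_mul, Multiset.replicate_add,
          Multiset.cons_add, Multiset.cons_add]
        congr 1
        abel
      have e2 : Multiset.replicate n' (b {α}) + n' • S.map (fun α => b {α}) =
          n' • (α ::ₘ S).map (fun α => b {α}) := by
        rw [Multiset.map_cons, ← Multiset.singleton_add, smul_add, Multiset.nsmul_singleton]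
      rw [e1, e2] at h3
      exact h3
  -- second equivalence: the product
  have hbM : b M = r := by
    rw [hbdef, hprod, hcard, hr, ← pow_mul, ← pow_add]
    congr 1
    omega
  have h5 : SE D A (M.map (fun α => b {α})) (Multiset.replicate (2 * j) r) := by
    have h := SE_union hc hrW n' b V hbW hb M hMV (2 * j - 1) (by rw [hcard]; omega) (by omega)
    rw [hbM, ← Multiset.replicate_succ] at h
    have e : 2 * j - 1 + 1 = 2 * j := by omega
    rw [e] at h
    exact h
  have hMb : AllIn W (M.map (fun α => b {α})) := by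
    intro β hβ
    obtain ⟨γ, hγ, rfl⟩ := Multiset.mem_map.1 hβ
    exact hbW {γ} (by simpa using hMV γ hγ) (by simp; omega)
  have h6 : ∀ t : ℕ, SE D A (t • M.map (fun α => b {α}))
      (Multiset.replicate (t * (2 * j)) r) := by
    intro t
    induction t with
    | zero =>
      rw [zero_smul, zero_mul, Multiset.replicate_zero]
      exact SE.refl hc hrW _ AllIn.zero
    | succ t ih =>
      rw [succ_nsmul, add_mul, one_mul, Multiset.replicate_add]
      apply SE.add hc _ hMb (AllIn.replicate hrW _) (AllIn.replicate hrW _) ih h5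
      intro β hβ
      exact hMb β (Multiset.mem_of_mem_nsmul hβ)
  have hMp : AllIn W (M.map (fun α => α ^ (4 * j * n))) := by
    intro β hβ
    obtain ⟨γ, hγ, rfl⟩ := Multiset.mem_map.1 hβ
    exact hpowW γ (hMV γ hγ)
  have h7 : SE D A (M.map (fun α => α ^ (4 * j * n)) +
      Multiset.replicate (M.card * (n' - 1)) r) (Multiset.replicate (n' * (2 * j)) r) := by
    apply SE.trans hc (hMp.add (AllIn.replicate hrW _)) _ (AllIn.replicate hrW _)
      (hstep M hMV) (h6 n')
    intro β hβ
    exact hMb β (Multiset.mem_of_mem_nsmul hβ)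
  have h8 : SE D A (M.map (fun α => α ^ (4 * j * n))) (Multiset.replicate (2 * j) r) := by
    apply SE.cancel hc (T := Multiset.replicate (M.card * (n' - 1)) r) hMp
      (AllIn.replicate hrW _) (AllIn.replicate hrW _)
    have e : Multiset.replicate (2 * j) r + Multiset.replicate (M.card * (n' - 1)) r =
        Multiset.replicate (n' * (2 * j)) r := by
      rw [← Multiset.replicate_add, hcard]
      congr 1
      obtain ⟨u, hu⟩ : ∃ u, n' = u + 1 := ⟨n' - 1, by omega⟩
      rw [hu, Nat.add_sub_cancel]; ring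
    rw [e]; exact h7
  apply cancel_many hc _ (Multiset.replicate j r) hMp (AllIn.replicate hrW _)
  have e : Multiset.replicate j r + (Multiset.replicate j r).map D =
      (Multiset.replicate (2 * j) r).map D := by
    rw [Multiset.map_replicate, Multiset.map_replicate, hDr, ← Multiset.replicate_add]
    congr 1; ring
  rw [e]; exact h8.1

end Pool.Agent.H924R2
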