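import Mathlib

/-!
Group-theoretic core: a parity argument with Sylow 2-subgroups.
-/

namespace Pool.Agent.H924R2

open MulAction Finset

section PGroup

/-- A Sylow `p`-subgroup acts transitively on a transitive set of prime power size. -/
theorem sylow_pretransitive {H B : Type*} [Group H] [Finite H] [MulAction H B] [Finite B]
    (p : ℕ) [Fact p.Prime] [IsPretransitive H B] (k : ℕ) (hB : Nat.card B = p ^ k)
    (P : Sylow p H) (x y : B) : ∃ g ∈ P, g • x = y := by
  classical
  have : Nonempty B := ⟨x⟩
  set S := stabilizer H x with hS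
  have hSi : S.index = p ^ k := by
    rw [hS, index_stabilizer, orbit_eq_univ, Set.ncard_univ, hB]
  have h1 : (S ⊓ (P : Subgroup H)).index = S.relIndex P * (P : Subgroup H).index := by
    rw [← Subgroup.inf_relIndex_right, Subgroup.relIndex_mul_index inf_le_right]
  have h2 : (S ⊓ (P : Subgroup H)).index = (S ⊓ (P : Subgroup H)).relIndex S * S.index := by
    rw [Subgroup.relIndex_mul_index inf_le_left]
  have h3 : p ^ k ∣ S.relIndex P * (P : Subgroup H).index := by
    rw [← h1, h2, hSi]; exact Dvd.intro_left _ rfl
  have hcop : Nat.Coprime (p ^ k) (P : Subgroup H).index := by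
    apply Nat.Coprime.pow_left
    exact (Nat.Prime.coprime_iff_not_dvd Fact.out).2 (P.not_dvd_index)
  have h4 : p ^ k ∣ S.relIndex P := hcop.dvd_of_dvd_mul_right h3
  have h5 : S.relIndex P = (orbit (P : Subgroup H) x).ncard := by
    rw [← index_stabilizer, Subgroup.relIndex]
    congr 1
  have h6 : 0 < (orbit (P : Subgroup H) x).ncard := by
    rw [Set.ncard_pos]; exact nonempty_orbit x
  have h7 : (orbit (P : Subgroup H) x).ncard = Nat.card B := by
    apply le_antisymm
    · rw [← Set.ncard_univ]; exact Set.ncard_le_ncard (Set.subset_univ _)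
    · rw [hB]; rw [h5] at h4; exact Nat.le_of_dvd h6 h4
  have h8 : orbit (P : Subgroup H) x = Set.univ := by
    apply Set.eq_of_subset_of_ncard_le (Set.subset_univ _)
    rw [Set.ncard_univ, h7]
  have hy : y ∈ orbit (P : Subgroup H) x := by rw [h8]; trivial
  obtain ⟨g, hg⟩ := hy
  exact ⟨g.1, g.2, hg⟩

end PGroup

section Parity

theorem even_card_of_bar {X : Type*} [DecidableEq X] (bar : X → X)
    (hbb : ∀ x, bar (bar x) = x) (hbf : ∀ x, bar x ≠ x) (S : Finset X)
    (hS : ∀ x ∈ S, bar x ∈ S) : Even S.card := by
  have h : ∑ x ∈ S, (1 : ZMod 2) = 0 := by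
    apply Finset.sum_involution (fun x _ => bar x)
    · intro a _; decide
    · intro a _ _; exact hbf a
    · intro a ha; exact hS a ha
    · intro a _; exact hbb a
  simp only [sum_const, nsmul_eq_mul, mul_one] at h
  exact (ZMod.natCast_eq_zero_iff_even).1 h

theorem card_symmDiff_mod {X : Type*} [DecidableEq X] (bar : X → X)
    (hbb : ∀ x, bar (bar x) = x) (hbf : ∀ x, bar x ≠ x) (A B : Finset X)
    (hA : ∀ x ∈ A, bar x ∈ A) (hB : ∀ x ∈ B, bar x ∈ B)
    (hA4 : A.card % 4 = 0) (hB4 : B.card % 4 = 0) : (symmDiff A B).card % 4 = 0 := by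
  have h1 : Even (A ∩ B).card := by
    apply even_card_of_bar bar hbb hbf
    intro x hx
    rw [mem_inter] at hx ⊢
    exact ⟨hA x hx.1, hB x hx.2⟩
  have h2 : (symmDiff A B).card + 2 * (A ∩ B).card = A.card + B.card := by
    have e1 : (A \ B).card + (A ∩ B).card = A.card := card_sdiff_add_card_inter A B
    have e2 : (B \ A).card + (B ∩ A).card = B.card := card_sdiff_add_card_inter B A
    have e3 : (symmDiff A B).card = (A \ B).card + (B \ A).card := by
      rw [symmDiff_def, sup_eq_union, card_union_of_disjoint]
      exact disjoint_sdiff_sdiff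
    rw [inter_comm B A] at e2
    omega
  obtain ⟨c, hc⟩ := h1
  omega

variable {G X Y : Type*} [Group G] [Finite G] [Fintype X] [DecidableEq X] [DecidableEq Y]
  [MulAction G X] [MulAction G Y]

/-- The core parity statement (block version, constant `0` outside of the block). -/
theorem parity_core [IsPretransitive G X] (bar : X → X) (hbb : ∀ x, bar (bar x) = x)
    (hbf : ∀ x, bar x ≠ x) (hbG : ∀ (g : G) x, bar (g • x) = g • bar x)
    (f : X → Y) (hf : ∀ (g : G) x, f (g • x) = g • f x) (hfb : ∀ x, f (bar x) = f x)
    (y₀ : Y) (k : ℕ) (hcard : (univ.filter (fun x => f x = y₀)).card = 2 ^ (k + 1))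
    (T : Finset X) (hTf : ∀ x ∈ T, f x = y₀) (hTb : ∀ x ∈ T, bar x ∈ T)
    (hT4 : T.card % 4 = 2)
    (Z : Finset X) (hZb : ∀ x ∈ Z, bar x ∈ Z)
    (hZ : ∀ g : G, (Z.filter (fun x => g • x ∈ T)).card % 4 = 0) : Z = ∅ := by
  classical
  by_contra hne
  obtain ⟨x₁, hx₁⟩ := Finset.nonempty_iff_ne_empty.2 hne
  -- a point of the block
  have hB0 : 0 < (univ.filter (fun x => f x = y₀)).card := by rw [hcard]; positivity
  obtain ⟨b₀, hb₀⟩ := Finset.card_pos.1 hB0
  simp only [mem_filter, mem_univ, true_and] at hb₀
  obtain ⟨g₀, hg₀⟩ := exists_smul_eq G x₁ b₀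
  -- the stabiliser of the block
  let H : Subgroup G := stabilizer G y₀
  have hH : ∀ h : G, h ∈ H ↔ h • y₀ = y₀ := fun h => mem_stabilizer_iff
  -- the collection
  let good : Finset X → Prop := fun S => (∀ x ∈ S, f x = y₀) ∧ (∀ x ∈ S, bar x ∈ S) ∧
    ∀ h ∈ H, (S.filter (fun x => h • x ∈ T)).card % 4 = 0
  let Z₀ : Finset X := univ.filter (fun x => f x = y₀ ∧ g₀⁻¹ • x ∈ Z)
  have hZ₀ : good Z₀ := by
    refine ⟨?_, ?_, ?_⟩
    · intro x hx; simp only [Z₀, mem_filter, mem_univ, true_and] at hx; exact hx.1
    · intro x hx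
      simp only [Z₀, mem_filter, mem_univ, true_and] at hx ⊢
      refine ⟨by rw [hfb]; exact hx.1, ?_⟩
      rw [← hbG]; exact hZb _ hx.2
    · intro h hh
      rw [← hZ (h * g₀)]
      congr 1
      apply Finset.card_bij (fun x _ => g₀⁻¹ • x)
      · intro x hx
        simp only [Z₀, mem_filter, mem_univ, true_and] at hx ⊢
        refine ⟨hx.1.2, ?_⟩
        rw [smul_smul, mul_assoc, mul_inv_cancel, mul_one]; exact hx.2
      · intro a _ b _ hab
        exact smul_left_cancel _ hab
      · intro x hx
        simp only [mem_filter] at hx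
        refine ⟨g₀ • x, ?_, ?_⟩
        · simp only [Z₀, mem_filter, mem_univ, true_and, smul_smul, inv_mul_cancel, one_smul]
          refine ⟨⟨?_, hx.1⟩, ?_⟩
          · have := hTf _ hx.2
            rw [mul_smul, hf] at this
            have h2 : f (g₀ • x) = h⁻¹ • y₀ := by
              rw [← this, smul_smul, inv_mul_cancel, one_smul]
            rw [h2]
            exact (hH _).1 (H.inv_mem hh)
          · exact hx.2
        · rw [smul_smul, inv_mul_cancel, one_smul]
  have hZ₀ne : Z₀.Nonempty := by
    refine ⟨b₀, ?_⟩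
    simp only [Z₀, mem_filter, mem_univ, true_and]
    refine ⟨hb₀, ?_⟩
    rw [← hg₀, smul_smul, inv_mul_cancel, one_smul]; exact hx₁
  have hgood_symm : ∀ A B, good A → good B → good (symmDiff A B) := by
    intro A B hA hB
    refine ⟨?_, ?_, ?_⟩
    · intro x hx
      rw [mem_symmDiff] at hx
      rcases hx with hx | hx
      · exact hA.1 x hx.1
      · exact hB.1 x hx.1
    · intro x hx
      rw [mem_symmDiff] at hx ⊢
      rcases hx with hx | hx
      · left
        refine ⟨hA.2.1 x hx.1, fun hb => hx.2 ?_⟩
        have := hB.2.1 _ hb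
        rwa [hbb] at this
      · right
        refine ⟨hB.2.1 x hx.1, fun hb => hx.2 ?_⟩
        have := hA.2.1 _ hb
        rwa [hbb] at this
    · intro h hh
      have e : (symmDiff A B).filter (fun x => h • x ∈ T) =
          symmDiff (A.filter (fun x => h • x ∈ T)) (B.filter (fun x => h • x ∈ T)) := by
        ext x
        simp only [mem_filter, mem_symmDiff]
        tauto
      rw [e]
      apply card_symmDiff_mod bar hbb hbf
      · intro x hx
        rw [mem_filter] at hx ⊢
        refine ⟨hA.2.1 x hx.1, ?_⟩
        rw [← hbG]; exact hTb _ hx.2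
      · intro x hx
        rw [mem_filter] at hx ⊢
        refine ⟨hB.2.1 x hx.1, ?_⟩
        rw [← hbG]; exact hTb _ hx.2
      · exact hA.2.2 h hh
      · exact hB.2.2 h hh
  -- the finite type of good sets, with an action of H
  let 𝒵 := {S : Finset X // good S}
  have hgood_smul : ∀ h : H, ∀ S, good S → good (S.image (fun x => (h : G) • x)) := by
    intro h S hS
    refine ⟨?_, ?_, ?_⟩
    · intro x hx
      rw [mem_image] at hx
      obtain ⟨y, hy, rfl⟩ := hx
      rw [hf, hS.1 y hy]
      exact (hH _).1 h.2
    · intro x hx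
      rw [mem_image] at hx ⊢
      obtain ⟨y, hy, rfl⟩ := hx
      exact ⟨bar y, hS.2.1 y hy, (hbG _ _).symm⟩
    · intro h' hh'
      rw [← hS.2.2 (h' * h) (H.mul_mem hh' h.2)]
      congr 1
      symm
      apply Finset.card_bij (fun x _ => (h : G) • x)
      · intro x hx
        rw [mem_filter] at hx ⊢
        refine ⟨mem_image_of_mem _ hx.1, ?_⟩
        rw [smul_smul]; exact hx.2
      · intro a _ b _ hab
        exact smul_left_cancel _ hab
      · intro x hx
        rw [mem_filter, mem_image] at hx
        obtain ⟨⟨y, hy, rfl⟩, hx2⟩ := hx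
        refine ⟨y, ?_, rfl⟩
        rw [mem_filter, mul_smul]
        exact ⟨hy, hx2⟩
  let actZ : MulAction H 𝒵 :=
    { smul := fun h S => ⟨S.1.image (fun x => (h : G) • x), hgood_smul h S.1 S.2⟩
      one_smul := by
        intro S
        apply Subtype.ext
        show S.1.image (fun x => ((1 : H) : G) • x) = S.1
        simp
      mul_smul := by
        intro a b S
        apply Subtype.ext
        show S.1.image (fun x => ((a * b : H) : G) • x) =
          (S.1.image (fun x => (b : G) • x)).image (fun x => (a : G) • x)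
        rw [Finset.image_image]
        congr 1
        funext x
        simp [mul_smul] }
  have : Finite 𝒵 := inferInstance
  -- parity of the number of good sets
  have hcardZ : 2 ∣ Nat.card 𝒵 := by
    have : Fintype 𝒵 := Fintype.ofFinite _
    rw [Nat.card_eq_fintype_card]
    have h : ∑ _x : 𝒵, (1 : ZMod 2) = 0 := by
      apply Finset.sum_involution (fun (S : 𝒵) _ =>
        (⟨symmDiff S.1 Z₀, hgood_symm _ _ S.2 hZ₀⟩ : 𝒵))
      · intro a _; decide
      · intro a _ _ heq
        have h1 : symmDiff a.1 Z₀ = a.1 := congrArg Subtype.val heq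
        rw [symmDiff_eq_left] at h1
        exact hZ₀ne.ne_empty h1
      · intro a _; exact mem_univ _
      · intro a _
        apply Subtype.ext
        show symmDiff (symmDiff a.1 Z₀) Z₀ = a.1
        rw [symmDiff_symmDiff_cancel_right]
    simp only [sum_const, nsmul_eq_mul, mul_one, card_univ] at h
    exact (ZMod.natCast_eq_zero_iff _ _).1 h
  -- Sylow subgroup
  obtain ⟨P⟩ : Nonempty (Sylow 2 H) := inferInstance
  have hempty : good ∅ := by
    refine ⟨by simp, by simp, by simp⟩
  have hfix : (⟨∅, hempty⟩ : 𝒵) ∈ fixedPoints (P : Subgroup H) 𝒵 := by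
    intro h
    apply Subtype.ext
    show (∅ : Finset X).image _ = ∅
    simp
  obtain ⟨W, hW, hWne⟩ := P.2.exists_fixed_point_of_prime_dvd_card_of_fixed_point 𝒵 hcardZ hfix
  have hWne' : W.1.Nonempty := by
    rw [Finset.nonempty_iff_ne_empty]
    intro h
    apply hWne
    apply Subtype.ext
    exact h.symm
  have hWfix : ∀ h ∈ P, ∀ x ∈ W.1, (h : G) • x ∈ W.1 := by
    intro h hh x hx
    have := hW ⟨h, hh⟩
    have h2 : W.1.image (fun x => (h : G) • x) = W.1 := congrArg Subtype.val this
    rw [← h2]
    exact mem_image_of_mem _ hx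
  -- action on the block
  let B := {x : X // f x = y₀}
  let actB : MulAction H B :=
    { smul := fun h x => ⟨(h : G) • x.1, by rw [hf, x.2]; exact (hH _).1 h.2⟩
      one_smul := by
        intro x
        apply Subtype.ext
        show ((1 : H) : G) • x.1 = x.1
        simp
      mul_smul := by
        intro a b x
        apply Subtype.ext
        show ((a * b : H) : G) • x.1 = (a : G) • ((b : G) • x.1)
        rw [Subgroup.coe_mul, mul_smul] }
  have : IsPretransitive H B := by
    constructor
    intro x y
    obtain ⟨g, hg⟩ := exists_smul_eq G x.1 y.1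
    have hgH : g ∈ H := by
      rw [hH, ← x.2, ← hf, hg, y.2, x.2]
    exact ⟨⟨g, hgH⟩, Subtype.ext hg⟩
  have hBcard : Nat.card B = 2 ^ (k + 1) := by
    rw [← hcard, Nat.card_eq_fintype_card, Fintype.card_subtype]
  have hWall : ∀ x, f x = y₀ → x ∈ W.1 := by
    intro x hx
    obtain ⟨w, hw⟩ := hWne'
    have hwf := W.2.1 w hw
    obtain ⟨g, hgP, hg⟩ := sylow_pretransitive (H := H) (B := B) 2 (k + 1) hBcard P
      ⟨w, hwf⟩ ⟨x, hx⟩
    have h3 := hWfix g hgP w hw
    have h4 : (g : G) • w = x := congrArg Subtype.val hg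
    rwa [h4] at h3
  have hfin := W.2.2.2 1 H.one_mem
  have e : W.1.filter (fun x => (1 : G) • x ∈ T) = T := by
    ext x
    simp only [mem_filter, one_smul]
    exact ⟨fun h => h.2, fun h => ⟨hWall x (hTf x h), h⟩⟩
  rw [e] at hfin
  omega

/-- The parity statement, allowing the complement. -/
theorem parity_both [IsPretransitive G X] (bar : X → X) (hbb : ∀ x, bar (bar x) = x)
    (hbf : ∀ x, bar x ≠ x) (hbG : ∀ (g : G) x, bar (g • x) = g • bar x)
    (f : X → Y) (hf : ∀ (g : G) x, f (g • x) = g • f x) (hfb : ∀ x, f (bar x) = f x)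
    (y₀ : Y) (k : ℕ) (hcard : (univ.filter (fun x => f x = y₀)).card = 2 ^ (k + 1))
    (n : X → ℤ) (hnb : ∀ x, n (bar x) = - n x) (ε : ℤ) (hε : Even ε ∨ 4 ∣ Fintype.card X)
    (hout : ∀ x, f x ≠ y₀ → Even (n x - ε))
    (hin : (univ.filter (fun x => f x = y₀ ∧ Odd (n x - ε))).card % 4 = 2)
    (Z : Finset X) (hZb : ∀ x ∈ Z, bar x ∈ Z)
    (hZ : ∀ g : G, (Z.filter (fun x => Odd (n (g • x)))).card % 4 = 0) : Z = ∅ := by
  classical
  set T : Finset X := univ.filter (fun x => f x = y₀ ∧ Odd (n x - ε)) with hT
  have hTf : ∀ x ∈ T, f x = y₀ := by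
    intro x hx; simp only [hT, mem_filter, mem_univ, true_and] at hx; exact hx.1
  have hTb : ∀ x ∈ T, bar x ∈ T := by
    intro x hx
    simp only [hT, mem_filter, mem_univ, true_and] at hx ⊢
    refine ⟨by rw [hfb]; exact hx.1, ?_⟩
    rw [hnb]
    have := hx.2
    rw [Int.odd_iff] at this ⊢
    omega
  have hTiff : ∀ x, x ∈ T ↔ Odd (n x - ε) := by
    intro x
    simp only [hT, mem_filter, mem_univ, true_and]
    constructor
    · exact fun h => h.2
    · intro h
      refine ⟨?_, h⟩
      by_contra hc
      exact (Int.not_even_iff_odd.2 h) (hout x hc)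
  rcases Int.even_or_odd ε with he | ho
  · apply parity_core (G := G) bar hbb hbf hbG f hf hfb y₀ k hcard T hTf hTb hin Z hZb
    intro g
    rw [← hZ g]
    congr 2
    ext x
    simp only [mem_filter, and_congr_right_iff]
    intro _
    rw [hTiff]
    rw [Int.even_iff] at he
    rw [Int.odd_iff, Int.odd_iff]
    omega
  · -- ε odd
    have h4X : 4 ∣ Fintype.card X := by
      rcases hε with h | h
      · exact absurd h (Int.not_even_iff_odd.2 ho)
      · exact h
    have hcompl : ∀ g : G, ∀ x, Odd (n (g • x)) ↔ ¬ (g • x ∈ T) := by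
      intro g x
      rw [hTiff]
      rw [Int.odd_iff] at ho
      rw [Int.odd_iff, Int.odd_iff]
      omega
    have hsplit : ∀ (W : Finset X) (g : G), (W.filter (fun x => g • x ∈ T)).card +
        (W.filter (fun x => Odd (n (g • x)))).card = W.card := by
      intro W g
      have : W.filter (fun x => Odd (n (g • x))) = W.filter (fun x => ¬ (g • x ∈ T)) := by
        ext x; simp only [mem_filter, hcompl]
      rw [this]
      exact Finset.card_filter_add_card_filter_not _
    have hZeven : Even Z.card := even_card_of_bar bar hbb hbf Z hZb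
    rcases (show Z.card % 4 = 0 ∨ Z.card % 4 = 2 by obtain ⟨c, hc⟩ := hZeven; omega) with h0 | h2
    · apply parity_core (G := G) bar hbb hbf hbG f hf hfb y₀ k hcard T hTf hTb hin Z hZb
      intro g
      have h1 := hsplit Z g
      have h3 := hZ g
      omega
    · exfalso
      have hZc : Zᶜ = ∅ := by
        apply parity_core (G := G) bar hbb hbf hbG f hf hfb y₀ k hcard T hTf hTb hin
        · intro x hx
          rw [mem_compl] at hx ⊢
          intro hb
          apply hx
          have := hZb _ hb
          rwa [hbb] at this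
        · intro g
          have h1 := hsplit Z g
          have h3 := hZ g
          have h5 : (Z.filter (fun x => g • x ∈ T)).card + (Zᶜ.filter (fun x => g • x ∈ T)).card
              = T.card := by
            rw [← Finset.card_union_of_disjoint]
            · rw [← Finset.filter_union, Finset.union_compl]
              apply Finset.card_bij (fun x _ => g • x)
              · intro x hx; rw [mem_filter] at hx; exact hx.2
              · intro a _ b _ hab; exact smul_left_cancel _ hab
              · intro x hx
                refine ⟨g⁻¹ • x, ?_, ?_⟩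
                · rw [mem_filter, smul_smul, mul_inv_cancel, one_smul]
                  exact ⟨mem_univ _, hx⟩
                · rw [smul_smul, mul_inv_cancel, one_smul]
            · exact Finset.disjoint_filter_filter disjoint_compl_right
          omega
      have h7 : Z.card = Fintype.card X := by
        have := Finset.card_compl Z
        rw [hZc, Finset.card_empty] at this
        have h8 : Z.card ≤ Fintype.card X := Finset.card_le_univ Z
        omega
      omega

/-- The sum of a `bar`-invariant integer function is, mod 4, the number of odd values. -/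
theorem sum_bar_mod {X : Type*} [DecidableEq X] (bar : X → X)
    (hbb : ∀ x, bar (bar x) = x) (hbf : ∀ x, bar x ≠ x) (S : Finset X)
    (hS : ∀ x ∈ S, bar x ∈ S) (a : X → ℤ) (ha : ∀ x, a (bar x) = a x) :
    (∑ x ∈ S, a x) ≡ ((S.filter (fun x => Odd (a x))).card : ℤ) [ZMOD 4] := by
  classical
  -- b x = (a x - [a x odd]) / 2
  have h1 : ∀ x, ∃ c : ℤ, a x = (if Odd (a x) then 1 else 0) + 2 * c := by
    intro x
    by_cases h : Odd (a x)
    · obtain ⟨c, hc⟩ := h
      refine ⟨c, ?_⟩
      rw [if_pos ⟨c, hc⟩]; omega
    · rw [Int.not_odd_iff_even] at h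
      obtain ⟨c, hc⟩ := h
      refine ⟨c, ?_⟩
      rw [if_neg (Int.not_odd_iff_even.2 ⟨c, hc⟩)]; omega
  choose c hc using h1
  have hcb : ∀ x, c (bar x) = c x := by
    intro x
    have e1 := hc x
    have e2 := hc (bar x)
    rw [ha] at e2
    by_cases h : Odd (a x)
    · rw [if_pos h] at e1 e2; omega
    · rw [if_neg h] at e1 e2; omega
  have hceven : Even (∑ x ∈ S, c x) := by
    have h : ∑ x ∈ S, ((c x : ℤ) : ZMod 2) = 0 := by
      apply Finset.sum_involution (fun x _ => bar x)
      · intro x _
        rw [hcb]
        have : ∀ z : ZMod 2, z + z = 0 := by decide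
        exact this _
      · intro x _ _; exact hbf x
      · intro x hx; exact hS x hx
      · intro x _; exact hbb x
    rw [← Int.cast_sum] at h
    have := (ZMod.intCast_zmod_eq_zero_iff_dvd _ 2).1 h
    exact even_iff_two_dvd.2 (by exact_mod_cast this)
  have hsum : ∑ x ∈ S, a x = ((S.filter (fun x => Odd (a x))).card : ℤ) + 2 * ∑ x ∈ S, c x := by
    rw [Finset.sum_congr rfl (fun x _ => hc x), Finset.sum_add_distrib, ← Finset.mul_sum]
    congr 1
    rw [Finset.sum_ite, Finset.sum_const_zero, add_zero, Finset.sum_const]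
    simp
  rw [hsum]
  obtain ⟨d, hd⟩ := hceven
  rw [hd]
  rw [Int.ModEq]
  omega

/-- Main combinatorial statement: an odd integer function orthogonal to all translates of
`n` vanishes. -/
theorem odd_orthogonal_zero [IsPretransitive G X] (bar : X → X) (hbb : ∀ x, bar (bar x) = x)
    (hbf : ∀ x, bar x ≠ x) (hbG : ∀ (g : G) x, bar (g • x) = g • bar x)
    (f : X → Y) (hf : ∀ (g : G) x, f (g • x) = g • f x) (hfb : ∀ x, f (bar x) = f x)
    (y₀ : Y) (k : ℕ) (hcard : (univ.filter (fun x => f x = y₀)).card = 2 ^ (k + 1))
    (n : X → ℤ) (hnb : ∀ x, n (bar x) = - n x) (ε : ℤ) (hε : Even ε ∨ 4 ∣ Fintype.card X)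
    (hout : ∀ x, f x ≠ y₀ → Even (n x - ε))
    (hin : (univ.filter (fun x => f x = y₀ ∧ Odd (n x - ε))).card % 4 = 2)
    (z : X → ℤ) (hzb : ∀ x, z (bar x) = - z x)
    (hz : ∀ g : G, ∑ x, z x * n (g • x) = 0) : ∀ x, z x = 0 := by
  classical
  -- strong induction on the sum of absolute values
  suffices H : ∀ (N : ℕ) (z : X → ℤ), (∑ x, (z x).natAbs) ≤ N → (∀ x, z (bar x) = - z x) →
      (∀ g : G, ∑ x, z x * n (g • x) = 0) → ∀ x, z x = 0 from
    H _ z le_rfl hzb hz
  intro N
  induction N using Nat.strong_induction_on with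
  | _ N ih =>
    intro z hN hzb hz
    -- all values are even
    have hev : ∀ x, Even (z x) := by
      let Z : Finset X := univ.filter (fun x => Odd (z x))
      have hZ0 : Z = ∅ := by
        apply parity_both (G := G) bar hbb hbf hbG f hf hfb y₀ k hcard n hnb ε hε hout hin
        · intro x hx
          simp only [Z, mem_filter, mem_univ, true_and] at hx ⊢
          rw [hzb]; exact hx.neg
        · intro g
          have h1 := sum_bar_mod bar hbb hbf univ (fun x _ => mem_univ _)
            (fun x => z x * n (g • x)) (by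
              intro x
              show z (bar x) * n (g • bar x) = z x * n (g • x)
              rw [← hbG, hzb, hnb]; ring)
          rw [hz g] at h1
          have h2 : (Z.filter (fun x => Odd (n (g • x)))) =
              univ.filter (fun x => Odd (z x * n (g • x))) := by
            ext x
            simp only [Z, mem_filter, mem_univ, true_and, Int.odd_mul]
          rw [h2]
          rw [Int.ModEq] at h1
          omega
      intro x
      by_contra hx
      rw [Int.not_even_iff_odd] at hx
      have : x ∈ Z := by simp only [Z, mem_filter, mem_univ, true_and]; exact hx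
      rw [hZ0] at this
      simp at this
    choose w hw using fun x => (hev x)
    have hw2 : ∀ x, z x = 2 * w x := fun x => by rw [hw x]; ring
    by_cases hall : ∀ x, z x = 0
    · exact hall
    · exfalso
      push Not at hall
      obtain ⟨x₀, hx₀⟩ := hall
      have hlt : ∑ x, (w x).natAbs < ∑ x, (z x).natAbs := by
        apply Finset.sum_lt_sum
        · intro x _
          have := hw2 x
          omega
        · refine ⟨x₀, mem_univ _, ?_⟩
          have := hw2 x₀
          omega
      have hw0 := ih (∑ x, (w x).natAbs) (by omega) w le_rfl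
        (by intro x
            have e1 := hw2 x
            have e2 := hw2 (bar x)
            have e3 := hzb x
            omega)
        (by intro g
            have e := hz g
            have e2 : ∑ x, z x * n (g • x) = 2 * ∑ x, w x * n (g • x) := by
              rw [Finset.mul_sum]
              apply Finset.sum_congr rfl
              intro x _
              rw [hw2 x]; ring
            rw [e2] at e
            omega)
      have := hw2 x₀
      rw [hw0 x₀] at this
      omega

end Parity

end Pool.Agent.H924R2
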