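import Mathlib
import Pool.Agent.H924R2.Parity

/-!
Group-theoretic core for odd primes: a mod `r` argument with Sylow `r`-subgroups.
-/

namespace Pool.Agent.H924R2

open MulAction Finset

section Orbit

/-- In a transitive set of size `2 r ^ k` (`r` odd prime) the orbits of a Sylow `r`-subgroup have
size `r ^ k`. -/
theorem sylow_orbit_card {H B : Type*} [Group H] [Finite H] [MulAction H B] [Finite B]
    (r : ℕ) [Fact r.Prime] (hr : r ≠ 2) [IsPretransitive H B] (k : ℕ)
    (hB : Nat.card B = 2 * r ^ k) (P : Sylow r H) (x : B) :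
    (orbit (P : Subgroup H) x).ncard = r ^ k := by
  classical
  have hrp : r.Prime := Fact.out
  have : Nonempty B := ⟨x⟩
  set S := stabilizer H x with hS
  have hSi : S.index = 2 * r ^ k := by
    rw [hS, index_stabilizer, orbit_eq_univ, Set.ncard_univ, hB]
  have h1 : (S ⊓ (P : Subgroup H)).index = S.relIndex P * (P : Subgroup H).index := by
    rw [← Subgroup.inf_relIndex_right, Subgroup.relIndex_mul_index inf_le_right]
  have h2 : (S ⊓ (P : Subgroup H)).index = (S ⊓ (P : Subgroup H)).relIndex S * S.index := by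
    rw [Subgroup.relIndex_mul_index inf_le_left]
  have h3 : r ^ k ∣ S.relIndex P * (P : Subgroup H).index := by
    rw [← h1, h2, hSi]
    exact Dvd.dvd.mul_left (Dvd.intro_left _ rfl) _
  have hcop : Nat.Coprime (r ^ k) (P : Subgroup H).index := by
    apply Nat.Coprime.pow_left
    exact (Nat.Prime.coprime_iff_not_dvd Fact.out).2 (P.not_dvd_index)
  have h4 : r ^ k ∣ S.relIndex P := hcop.dvd_of_dvd_mul_right h3
  have h5 : S.relIndex P = (orbit (P : Subgroup H) x).ncard := by
    rw [← index_stabilizer, Subgroup.relIndex]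
    congr 1
  rw [h5] at h4
  obtain ⟨n, hn⟩ := P.2.card_orbit x
  have hn' : (orbit (P : Subgroup H) x).ncard = r ^ n := hn
  have h7 : (orbit (P : Subgroup H) x).ncard ≤ 2 * r ^ k := by
    rw [← hB, ← Set.ncard_univ]; exact Set.ncard_le_ncard (Set.subset_univ _)
  rw [hn'] at h4 h7 ⊢
  have h8 : k ≤ n := (Nat.pow_dvd_pow_iff_le_right hrp.one_lt).1 h4
  have h9 : n ≤ k := by
    by_contra hlt
    push Not at hlt
    have h10 : r ^ (k + 1) ≤ r ^ n := Nat.pow_le_pow_right hrp.pos hlt
    have h11 : 3 ≤ r := by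
      have := hrp.two_le
      omega
    have h12 : 0 < r ^ k := pow_pos hrp.pos k
    have h13 : 3 * r ^ k ≤ r ^ (k + 1) := by
      rw [pow_succ, mul_comm]; exact Nat.mul_le_mul_left _ h11
    omega
  rw [le_antisymm h9 h8]

end Orbit

section Core

variable {G X Y Z : Type*} [Group G] [Finite G] [Fintype X] [DecidableEq X] [DecidableEq Y]
  [MulAction G X] [MulAction G Y] [MulAction G Z]

/-- The mod `r` core. -/
theorem oddprime_core (r : ℕ) [Fact r.Prime] (hr : r ≠ 2) [IsPretransitive G X]
    (bar : X → X) (hbb : ∀ x, bar (bar x) = x)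
    (hbf : ∀ x, bar x ≠ x) (hbG : ∀ (g : G) x, bar (g • x) = g • bar x)
    (f : X → Y) (hf : ∀ (g : G) x, f (g • x) = g • f x) (hfb : ∀ x, f (bar x) = f x)
    (ρ : X → Z) (hρ : ∀ (g : G) x, ρ (g • x) = g • ρ x)
    (hρb : ∀ x x', ρ x = ρ x' → ρ (bar x) = ρ (bar x')) (hρf : ∀ x x', ρ x = ρ x' → f x = f x')
    (hρne : ∀ x, ρ (bar x) ≠ ρ x)
    (y₀ : Y) (k : ℕ) (hcard : (univ.filter (fun x => f x = y₀)).card = 2 * r ^ k)
    (n : X → ZMod r) (hnb : ∀ x, n (bar x) = - n x)
    (hout : ∀ x, f x ≠ y₀ → n x = 0)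
    (hin : ∀ T : Finset X, (∀ x ∈ T, f x = y₀) → (∀ x, f x = y₀ → (x ∈ T ↔ bar x ∉ T)) →
      (∀ x x', ρ x = ρ x' → (x ∈ T → x' ∈ T)) → ∑ x ∈ T, n x ≠ 0)
    (z : X → ZMod r) (hzb : ∀ x, z (bar x) = - z x)
    (hz : ∀ g : G, ∑ x, z x * n (g • x) = 0) : ∀ x, z x = 0 := by
  classical
  have hrp : r.Prime := Fact.out
  by_contra hne
  push Not at hne
  obtain ⟨x₁, hx₁⟩ := hne
  have hB0 : 0 < (univ.filter (fun x => f x = y₀)).card := by
    rw [hcard]; have := hrp.pos; positivity
  obtain ⟨b₀, hb₀⟩ := Finset.card_pos.1 hB0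
  simp only [mem_filter, mem_univ, true_and] at hb₀
  obtain ⟨g₀, hg₀⟩ := exists_smul_eq G x₁ b₀
  let H : Subgroup G := stabilizer G y₀
  have hH : ∀ h : G, h ∈ H ↔ h • y₀ = y₀ := fun h => mem_stabilizer_iff
  -- the group of good functions
  let 𝒵 : AddSubgroup (X → ZMod r) :=
    { carrier := {y | (∀ x, f x ≠ y₀ → y x = 0) ∧ (∀ x, y (bar x) = - y x) ∧
        ∀ h ∈ H, ∑ x, y x * n (h • x) = 0}
      zero_mem' := by
        refine ⟨fun x _ => rfl, fun x => by simp, fun h _ => by simp⟩
      add_mem' := by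
        intro a b ha hb
        refine ⟨fun x hx => ?_, fun x => ?_, fun h hh => ?_⟩
        · rw [Pi.add_apply, ha.1 x hx, hb.1 x hx, add_zero]
        · rw [Pi.add_apply, Pi.add_apply, ha.2.1, hb.2.1]; ring
        · simp only [Pi.add_apply, add_mul, Finset.sum_add_distrib]
          rw [ha.2.2 h hh, hb.2.2 h hh, add_zero]
      neg_mem' := by
        intro a ha
        refine ⟨fun x hx => ?_, fun x => ?_, fun h hh => ?_⟩
        · rw [Pi.neg_apply, ha.1 x hx, neg_zero]
        · rw [Pi.neg_apply, Pi.neg_apply, ha.2.1]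
        · simp only [Pi.neg_apply, neg_mul, Finset.sum_neg_distrib]
          rw [ha.2.2 h hh, neg_zero] }
  -- the restriction of the translate of z
  let z₀ : X → ZMod r := fun x => if f x = y₀ then z (g₀⁻¹ • x) else 0
  have hz₀ : z₀ ∈ 𝒵 := by
    refine ⟨?_, ?_, ?_⟩
    · intro x hx; simp only [z₀, if_neg hx]
    · intro x
      simp only [z₀, hfb]
      by_cases hx : f x = y₀
      · rw [if_pos hx, if_pos hx, ← hbG, hzb]
      · rw [if_neg hx, if_neg hx, neg_zero]
    · intro h hh
      have e1 : ∑ x, z₀ x * n (h • x) = ∑ x, z (g₀⁻¹ • x) * n (h • x) := by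
        apply Finset.sum_congr rfl
        intro x _
        by_cases hx : f x = y₀
        · simp only [z₀, if_pos hx]
        · have h1 : f (h • x) ≠ y₀ := by
            rw [hf]
            intro h2
            apply hx
            have h3 : f x = h⁻¹ • y₀ := by rw [← h2, smul_smul, inv_mul_cancel, one_smul]
            rw [h3]; exact (hH _).1 (H.inv_mem hh)
          rw [hout _ h1, mul_zero, mul_zero]
      rw [e1, ← hz (h * g₀)]
      apply Finset.sum_nbij' (i := fun x => g₀⁻¹ • x) (j := fun x => g₀ • x)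
      · intro x _; exact mem_univ _
      · intro x _; exact mem_univ _
      · intro x _; rw [smul_smul, mul_inv_cancel, one_smul]
      · intro x _; rw [smul_smul, inv_mul_cancel, one_smul]
      · intro x _; rw [smul_smul, mul_assoc, mul_inv_cancel, mul_one]
  have hz₀ne : z₀ b₀ ≠ 0 := by
    simp only [z₀, if_pos hb₀]
    rw [← hg₀, smul_smul, inv_mul_cancel, one_smul]; exact hx₁
  -- action of H on 𝒵
  have hact : ∀ h : H, ∀ y ∈ 𝒵, (fun x => y ((h : G)⁻¹ • x)) ∈ 𝒵 := by
    intro h y hy
    refine ⟨?_, ?_, ?_⟩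
    · intro x hx
      apply hy.1
      rw [hf]
      intro h2
      apply hx
      have h3 : f x = (h : G) • y₀ := by rw [← h2, smul_smul, mul_inv_cancel, one_smul]
      rw [h3]; exact (hH _).1 h.2
    · intro x
      show y ((h : G)⁻¹ • bar x) = - y ((h : G)⁻¹ • x)
      rw [← hbG, hy.2.1]
    · intro h' hh'
      rw [← hy.2.2 (h' * h) (H.mul_mem hh' h.2)]
      apply Finset.sum_nbij' (i := fun x => (h : G)⁻¹ • x) (j := fun x => (h : G) • x)
      · intro x _; exact mem_univ _
      · intro x _; exact mem_univ _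
      · intro x _; rw [smul_smul, mul_inv_cancel, one_smul]
      · intro x _; rw [smul_smul, inv_mul_cancel, one_smul]
      · intro x _; rw [smul_smul, mul_assoc, mul_inv_cancel, mul_one]
  let actZ : MulAction H 𝒵 :=
    { smul := fun h y => ⟨fun x => y.1 ((h : G)⁻¹ • x), hact h y.1 y.2⟩
      one_smul := by
        intro y
        apply Subtype.ext
        funext x
        show y.1 (((1 : H) : G)⁻¹ • x) = y.1 x
        simp
      mul_smul := by
        intro a b y
        apply Subtype.ext
        funext x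
        show y.1 (((a * b : H) : G)⁻¹ • x) = y.1 ((b : G)⁻¹ • ((a : G)⁻¹ • x))
        rw [smul_smul, Subgroup.coe_mul, mul_inv_rev] }
  have hcardZ : r ∣ Nat.card 𝒵 := by
    have h1 : addOrderOf (⟨z₀, hz₀⟩ : 𝒵) = r := by
      apply addOrderOf_eq_prime
      · apply Subtype.ext
        funext x
        show r • z₀ x = 0
        rw [nsmul_eq_mul, CharP.cast_eq_zero, zero_mul]
      · intro h
        apply hz₀ne
        have := congrArg Subtype.val h
        exact congrFun this b₀
    have h2 := addOrderOf_dvd_natCard (⟨z₀, hz₀⟩ : 𝒵)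
    rw [h1] at h2
    exact h2
  obtain ⟨P⟩ : Nonempty (Sylow r H) := inferInstance
  have hfix : (0 : 𝒵) ∈ fixedPoints (P : Subgroup H) 𝒵 := by
    intro h
    apply Subtype.ext
    funext x
    rfl
  obtain ⟨w, hw, hwne⟩ := P.2.exists_fixed_point_of_prime_dvd_card_of_fixed_point 𝒵 hcardZ hfix
  have hwfix : ∀ h ∈ P, ∀ x, w.1 ((h : G) • x) = w.1 x := by
    intro h hh x
    have h1 := hw ⟨h, hh⟩
    have h2 : (fun x => w.1 ((h : G)⁻¹ • x)) = w.1 := congrArg Subtype.val h1
    have h3 := congrFun h2 ((h : G) • x)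
    rw [smul_smul, inv_mul_cancel, one_smul] at h3
    exact h3.symm
  have hwne' : ∃ x, w.1 x ≠ 0 := by
    by_contra hcon
    push Not at hcon
    apply hwne
    apply Subtype.ext
    funext x
    exact (hcon x).symm
  obtain ⟨x₀, hx₀⟩ := hwne'
  have hfx₀ : f x₀ = y₀ := by
    by_contra h
    exact hx₀ (w.2.1 x₀ h)
  -- action on the block
  let B := {x : X // f x = y₀}
  let actB : MulAction H B :=
    { smul := fun h x => ⟨(h : G) • x.1, by rw [hf, x.2]; exact (hH _).1 h.2⟩
      one_smul := by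
        intro x
        apply Subtype.ext
        show ((1 : H) : G) • x.1 = x.1
        simp
      mul_smul := by
        intro a b x
        apply Subtype.ext
        show ((a * b : H) : G) • x.1 = (a : G) • ((b : G) • x.1)
        rw [Subgroup.coe_mul, mul_smul] }
  have htr : IsPretransitive H B := by
    constructor
    intro x y
    obtain ⟨g, hg⟩ := exists_smul_eq G x.1 y.1
    have hgH : g ∈ H := by
      rw [hH, ← x.2, ← hf, hg, y.2, x.2]
    exact ⟨⟨g, hgH⟩, Subtype.ext hg⟩
  have hBcard : Nat.card B = 2 * r ^ k := by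
    rw [← hcard, Nat.card_eq_fintype_card, Fintype.card_subtype]
  -- the orbit
  let T : Finset X := univ.filter (fun x => ∃ h ∈ P, (h : G) • x₀ = x)
  have hTmem : ∀ x, x ∈ T ↔ ∃ h ∈ P, (h : G) • x₀ = x := by
    intro x; simp only [T, mem_filter, mem_univ, true_and]
  have hTf : ∀ x ∈ T, f x = y₀ := by
    intro x hx
    obtain ⟨h, hh, rfl⟩ := (hTmem x).1 hx
    rw [hf, hfx₀]; exact (hH _).1 h.2
  have horbcard : ∀ x : B, (orbit (P : Subgroup H) x).ncard = r ^ k :=
    fun x => sylow_orbit_card r hr k hBcard P x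
  -- cardinality of sets of the form P • x
  have hTcard : ∀ x (hx : f x = y₀), (univ.filter (fun y => ∃ h ∈ P, (h : G) • x = y)).card
      = r ^ k := by
    intro x hx
    rw [← horbcard ⟨x, hx⟩, ← Set.ncard_coe_finset]
    apply Set.ncard_congr' 
    refine
      { toFun := fun y => ⟨⟨y.1, ?_⟩, ?_⟩
        invFun := fun y => ⟨y.1.1, ?_⟩
        left_inv := fun y => rfl
        right_inv := fun y => rfl }
    · have hy := y.2
      rw [mem_coe, mem_filter] at hy
      obtain ⟨h, hh, hy2⟩ := hy.2
      rw [← hy2, hf, hx]; exact (hH _).1 h.2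
    · have hy := y.2
      rw [mem_coe, mem_filter] at hy
      obtain ⟨h, hh, hy2⟩ := hy.2
      exact ⟨⟨h, hh⟩, Subtype.ext hy2⟩
    · rw [mem_coe, mem_filter]
      obtain ⟨h, hy⟩ := y.2
      exact ⟨mem_univ _, h.1, h.2, congrArg Subtype.val hy⟩
  have hTc : T.card = r ^ k := hTcard x₀ hfx₀
  have hPT : ∀ h ∈ P, ∀ x ∈ T, (h : G) • x ∈ T := by
    intro h hh x hx
    obtain ⟨h', hh', rfl⟩ := (hTmem x).1 hx
    rw [hTmem]
    refine ⟨h * h', P.mul_mem hh hh', ?_⟩
    rw [smul_smul, Subgroup.coe_mul]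
  have hPTinv : ∀ h ∈ P, ∀ x, (h : G) • x ∈ T → x ∈ T := by
    intro h hh x hx
    have := hPT h⁻¹ (P.inv_mem hh) _ hx
    rwa [smul_smul, Subgroup.coe_inv, inv_mul_cancel, one_smul] at this
  have hrk : Odd (r ^ k) := (hrp.odd_of_ne_two hr).pow
  have hxT : x₀ ∈ T := (hTmem x₀).2 ⟨1, P.one_mem, by simp⟩
  -- if T contains x then it does not contain bar x
  have hnotboth : ∀ x, x ∈ T → bar x ∉ T := by
    intro x hx hbx
    -- then T is closed under bar
    have hclosed : ∀ y ∈ T, bar y ∈ T := by
      intro y hy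
      obtain ⟨h1, hh1, hy1⟩ := (hTmem y).1 hy
      obtain ⟨h2, hh2, hx2⟩ := (hTmem x).1 hx
      have e : bar y = ((h1 * h2⁻¹ : H) : G) • bar x := by
        rw [← hbG, ← hx2, ← hy1, Subgroup.coe_mul, Subgroup.coe_inv, mul_smul, smul_smul _ _ x₀,
          inv_mul_cancel, one_smul]
      rw [e]
      exact hPT _ (P.mul_mem hh1 (P.inv_mem hh2)) _ hbx
    have heven := even_card_of_bar bar hbb hbf T hclosed
    rw [hTc] at heven
    exact (Nat.not_even_iff_odd.2 hrk) heven
  -- T and its conjugate cover the block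
  have hcover : ∀ x, f x = y₀ → x ∈ T ∨ bar x ∈ T := by
    intro x hx
    by_contra hcon
    push Not at hcon
    let T' := T.image bar
    let T'' : Finset X := univ.filter (fun y => ∃ h ∈ P, (h : G) • x = y)
    have hT'' : T''.card = r ^ k := hTcard x hx
    have hT' : T'.card = r ^ k := by
      rw [Finset.card_image_of_injective _ (fun a b hab => by
        have := congrArg bar hab
        rwa [hbb, hbb] at this), hTc]
    have hd1 : Disjoint T T' := by
      rw [Finset.disjoint_left]
      intro y hy hy'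
      obtain ⟨u, hu, rfl⟩ := Finset.mem_image.1 hy'
      exact hnotboth u hu hy
    have hd2 : Disjoint (T ∪ T') T'' := by
      rw [Finset.disjoint_left]
      intro y hy hy''
      simp only [T'', mem_filter, mem_univ, true_and] at hy''
      obtain ⟨h, hh, rfl⟩ := hy''
      rcases Finset.mem_union.1 hy with h1 | h1
      · exact hcon.1 (hPTinv h hh x h1)
      · obtain ⟨u, hu, hu2⟩ := Finset.mem_image.1 h1
        apply hcon.2
        apply hPTinv h hh
        rw [← hbG, ← hu2, hbb]; exact hu
    have hsub : (T ∪ T') ∪ T'' ⊆ univ.filter (fun x => f x = y₀) := by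
      intro y hy
      rw [mem_filter]
      refine ⟨mem_univ _, ?_⟩
      rcases Finset.mem_union.1 hy with h1 | h1
      · rcases Finset.mem_union.1 h1 with h2 | h2
        · exact hTf y h2
        · obtain ⟨u, hu, rfl⟩ := Finset.mem_image.1 h2
          rw [hfb]; exact hTf u hu
      · simp only [T'', mem_filter, mem_univ, true_and] at h1
        obtain ⟨h, hh, rfl⟩ := h1
        rw [hf, hx]; exact (hH _).1 h.2
    have hle := Finset.card_le_card hsub
    rw [Finset.card_union_of_disjoint hd2, Finset.card_union_of_disjoint hd1, hTc, hT', hT'',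
      hcard] at hle
    have : 0 < r ^ k := pow_pos hrp.pos k
    omega
  have hhalf : ∀ x, f x = y₀ → (x ∈ T ↔ bar x ∉ T) := by
    intro x hx
    constructor
    · exact hnotboth x
    · intro h
      exact (hcover x hx).resolve_right h
  -- T is a union of fibres of ρ
  have hfibre : ∀ x x', ρ x = ρ x' → (x ∈ T → x' ∈ T) := by
    intro x x' hxx' hx
    by_contra hx'
    have hfx' : f x' = y₀ := by rw [← hρf x x' hxx']; exact hTf x hx
    have hbx' : bar x' ∈ T := (hcover x' hfx').resolve_left hx'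
    obtain ⟨h1, hh1, hy1⟩ := (hTmem _).1 hbx'
    obtain ⟨h2, hh2, hx2⟩ := (hTmem x).1 hx
    obtain ⟨h, hhP, hh⟩ : ∃ h ∈ P, (h : G) • x = bar x' := by
      refine ⟨h1 * h2⁻¹, P.mul_mem hh1 (P.inv_mem hh2), ?_⟩
      rw [← hx2, ← hy1, Subgroup.coe_mul, Subgroup.coe_inv, smul_smul, inv_mul_cancel_right]
    have e1 : (h : G) • ρ x = ρ (bar x) := by
      rw [← hρ, hh]; exact hρb _ _ hxx'.symm
    have e2 : (h : G) • (h : G) • ρ x = ρ x := by
      rw [e1, ← hρ, ← hbG]
      have e3 : ρ ((h : G) • x) = ρ (bar x) := by rw [hρ, e1]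
      rw [hρb _ _ e3, hbb]
    obtain ⟨m, hm⟩ : ∃ m, (h : G) ^ (r ^ m) = 1 := by
      obtain ⟨m, hm⟩ := P.2 ⟨h, hhP⟩
      refine ⟨m, ?_⟩
      have := congrArg (fun t : P => ((t : H) : G)) hm
      simpa using this
    have hodd : Odd (r ^ m) := (hrp.odd_of_ne_two hr).pow
    obtain ⟨t, ht⟩ := hodd
    have e4 : ∀ t : ℕ, ((h : G) ^ (2 * t)) • ρ x = ρ x := by
      intro t
      induction t with
      | zero => simp
      | succ t ih =>
        rw [mul_add, mul_one, pow_add, mul_smul, pow_two, mul_smul, e2, ih]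
    have e5 : (h : G) • ρ x = ρ x := by
      have e6 : (h : G) ^ (2 * (t + 1)) = (h : G) := by
        have : 2 * (t + 1) = r ^ m + 1 := by omega
        rw [this, pow_succ, hm, one_mul]
      have := e4 (t + 1)
      rwa [e6] at this
    rw [e1] at e5
    exact hρne x e5
  -- the sum
  have hsum := w.2.2.2 1 H.one_mem
  have hconst : ∀ x ∈ T, w.1 x = w.1 x₀ := by
    intro x hx
    obtain ⟨h, hh, rfl⟩ := (hTmem x).1 hx
    exact hwfix h hh x₀
  have hd1 : Disjoint T (T.image bar) := by
    rw [Finset.disjoint_left]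
    intro y hy hy'
    obtain ⟨u, hu, rfl⟩ := Finset.mem_image.1 hy'
    exact hnotboth u hu hy
  have hsum2 : ∑ x, w.1 x * n ((1 : G) • x) = 2 * (w.1 x₀ * ∑ x ∈ T, n x) := by
    have e1 : ∑ x, w.1 x * n ((1 : G) • x) = ∑ x ∈ T ∪ T.image bar, w.1 x * n x := by
      symm
      rw [← Finset.sum_subset (Finset.subset_univ (T ∪ T.image bar))]
      · apply Finset.sum_congr rfl
        intro x _
        rw [one_smul]
      · intro x _ hx
        by_cases hfx : f x = y₀
        · exfalso
          apply hx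
          rcases hcover x hfx with h | h
          · exact Finset.mem_union_left _ h
          · apply Finset.mem_union_right
            rw [Finset.mem_image]
            exact ⟨bar x, h, hbb x⟩
        · rw [w.2.1 x hfx, zero_mul]
    rw [e1, Finset.sum_union hd1, Finset.sum_image (by
      intro a _ b _ hab
      have := congrArg bar hab
      rwa [hbb, hbb] at this)]
    have e2 : ∀ x ∈ T, w.1 (bar x) * n (bar x) = w.1 x₀ * n x := by
      intro x hx
      rw [w.2.2.1, hnb, hconst x hx]; ring
    have e3 : ∀ x ∈ T, w.1 x * n x = w.1 x₀ * n x := by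
      intro x hx
      rw [hconst x hx]
    rw [Finset.sum_congr rfl e2, Finset.sum_congr rfl e3, ← Finset.mul_sum]
    ring
  rw [hsum2] at hsum
  have h2 : (2 : ZMod r) ≠ 0 := by
    intro h
    have h3 : ((2 : ℕ) : ZMod r) = 0 := by exact_mod_cast h
    rw [ZMod.natCast_eq_zero_iff] at h3
    have := Nat.le_of_dvd (by norm_num) h3
    have := hrp.two_le
    omega
  rcases mul_eq_zero.1 hsum with h | h
  · exact h2 h
  · rcases mul_eq_zero.1 h with h | h
    · exact hx₀ h
    · exact hin T hTf hhalf hfibre h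

/-- An odd integer function orthogonal to all translates of `n` vanishes (mod `r` criterion). -/
theorem odd_orthogonal_zero_r (r : ℕ) [Fact r.Prime] (hr : r ≠ 2) [IsPretransitive G X]
    (bar : X → X) (hbb : ∀ x, bar (bar x) = x)
    (hbf : ∀ x, bar x ≠ x) (hbG : ∀ (g : G) x, bar (g • x) = g • bar x)
    (f : X → Y) (hf : ∀ (g : G) x, f (g • x) = g • f x) (hfb : ∀ x, f (bar x) = f x)
    (ρ : X → Z) (hρ : ∀ (g : G) x, ρ (g • x) = g • ρ x)
    (hρb : ∀ x x', ρ x = ρ x' → ρ (bar x) = ρ (bar x')) (hρf : ∀ x x', ρ x = ρ x' → f x = f x')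
    (hρne : ∀ x, ρ (bar x) ≠ ρ x)
    (y₀ : Y) (k : ℕ) (hcard : (univ.filter (fun x => f x = y₀)).card = 2 * r ^ k)
    (n : X → ℤ) (hnb : ∀ x, n (bar x) = - n x)
    (hout : ∀ x, f x ≠ y₀ → (r : ℤ) ∣ n x)
    (hin : ∀ T : Finset X, (∀ x ∈ T, f x = y₀) → (∀ x, f x = y₀ → (x ∈ T ↔ bar x ∉ T)) →
      (∀ x x', ρ x = ρ x' → (x ∈ T → x' ∈ T)) → ¬ (r : ℤ) ∣ ∑ x ∈ T, n x)
    (z : X → ℤ) (hzb : ∀ x, z (bar x) = - z x)
    (hz : ∀ g : G, ∑ x, z x * n (g • x) = 0) : ∀ x, z x = 0 := by
  classical
  have hrp : r.Prime := Fact.out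
  suffices H : ∀ (N : ℕ) (z : X → ℤ), (∑ x, (z x).natAbs) ≤ N → (∀ x, z (bar x) = - z x) →
      (∀ g : G, ∑ x, z x * n (g • x) = 0) → ∀ x, z x = 0 from
    H _ z le_rfl hzb hz
  intro N
  induction N using Nat.strong_induction_on with
  | _ N ih =>
    intro z hN hzb hz
    have hev : ∀ x, (r : ℤ) ∣ z x := by
      have h1 := oddprime_core (G := G) r hr bar hbb hbf hbG f hf hfb ρ hρ hρb hρf hρne y₀ k hcard
        (fun x => ((n x : ℤ) : ZMod r))
        (fun x => by simp only [hnb]; push_cast; rfl)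
        (fun x hx => by
          rw [ZMod.intCast_zmod_eq_zero_iff_dvd]; exact hout x hx)
        (fun T hT1 hT2 hT3 h => by
          apply hin T hT1 hT2 hT3
          rw [← ZMod.intCast_zmod_eq_zero_iff_dvd]
          push_cast
          exact h)
        (fun x => ((z x : ℤ) : ZMod r))
        (fun x => by simp only [hzb]; push_cast; rfl)
        (fun g => by
          have := congrArg (fun t : ℤ => (t : ZMod r)) (hz g)
          simp only [Int.cast_zero] at this
          rw [← this]
          push_cast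
          rfl)
      intro x
      rw [← ZMod.intCast_zmod_eq_zero_iff_dvd]
      exact h1 x
    choose w hw using hev
    by_cases hall : ∀ x, z x = 0
    · exact hall
    · exfalso
      push Not at hall
      obtain ⟨x₀, hx₀⟩ := hall
      have hr2 : 2 ≤ r := hrp.two_le
      have hrz : (r : ℤ) ≠ 0 := by exact_mod_cast hrp.ne_zero
      have habs : ∀ x, (z x).natAbs = r * (w x).natAbs := by
        intro x
        rw [hw x, Int.natAbs_mul, Int.natAbs_natCast]
      have hlt : ∑ x, (w x).natAbs < ∑ x, (z x).natAbs := by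
        apply Finset.sum_lt_sum
        · intro x _
          rw [habs x]
          exact Nat.le_mul_of_pos_left _ hrp.pos
        · refine ⟨x₀, mem_univ _, ?_⟩
          rw [habs x₀]
          have hw0 : 0 < (w x₀).natAbs := by
            rw [Int.natAbs_pos]
            intro h
            apply hx₀
            rw [hw x₀, h, mul_zero]
          nlinarith
      have hw0 := ih (∑ x, (w x).natAbs) (by omega) w le_rfl
        (by intro x
            have e1 := hw x
            have e2 := hw (bar x)
            have e3 := hzb x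
            apply mul_left_cancel₀ hrz
            rw [← e2, e3, e1]; ring)
        (by intro g
            have e := hz g
            have e2 : ∑ x, z x * n (g • x) = r * ∑ x, w x * n (g • x) := by
              rw [Finset.mul_sum]
              apply Finset.sum_congr rfl
              intro x _
              rw [hw x]; ring
            rw [e2] at e
            exact (mul_eq_zero.1 e).resolve_left hrz)
      apply hx₀
      rw [hw x₀, hw0 x₀, mul_zero]

end Core

end Pool.Agent.H924R2
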