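import Mathlib
import Pool.Agent.H924R2.Parity
import Pool.Agent.H924R2.Descent

/-!
Number theoretic part: Weil numbers, their conjugates and p-adic absolute values.
-/

namespace Pool.Agent.H924R2

open Module MulAction
open scoped IntermediateField

section Conj

variable {K : Type*} [Field K] [NumberField K]

omit [NumberField K] in
/-- A root of the minimal polynomial of a generator gives an embedding. -/
theorem exists_hom {k : Type*} [Field k] [Algebra k K] (π : K) (hint : IsIntegral k π)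
    (hgen : k⟮π⟯ = ⊤) {R : Type*} [Field R] [Algebra k R] (y : R)
    (hy : Polynomial.aeval y (minpoly k π) = 0) : ∃ φ : K →ₐ[k] R, φ π = y := by
  let pb := IntermediateField.adjoin.powerBasis hint
  have hpb : pb.gen = IntermediateField.AdjoinSimple.gen k π :=
    IntermediateField.adjoin.powerBasis_gen hint
  have h1 : Polynomial.aeval y (minpoly k pb.gen) = 0 := by
    rw [hpb, IntermediateField.minpoly_gen]; exact hy
  let f : k⟮π⟯ →ₐ[k] R := pb.lift y h1
  have hf : f (IntermediateField.AdjoinSimple.gen k π) = y := by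
    rw [← hpb]; exact pb.lift_gen y h1
  let e : K ≃ₐ[k] k⟮π⟯ :=
    (IntermediateField.topEquiv.symm).trans (IntermediateField.equivOfEq hgen.symm)
  refine ⟨f.comp e.toAlgHom, ?_⟩
  have h2 : e π = IntermediateField.AdjoinSimple.gen k π := by
    apply Subtype.ext
    rfl
  show f (e π) = y
  rw [h2, hf]

omit [NumberField K] in
/-- Two embeddings agreeing at a generator are equal. -/
theorem hom_ext_gen {k : Type*} [Field k] [Algebra k K] (π : K) (hgen : k⟮π⟯ = ⊤)
    {R : Type*} [Field R] [Algebra k R]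
    (φ ψ : K →ₐ[k] R) (h : φ π = ψ π) : φ = ψ := by
  have h1 : ∀ x : K, x ∈ k⟮π⟯ → φ x = ψ x := by
    intro x hx
    induction hx using IntermediateField.adjoin_induction with
    | mem x hx => rw [Set.mem_singleton_iff] at hx; rw [hx]; exact h
    | algebraMap x => rw [AlgHom.commutes, AlgHom.commutes]
    | add x y _ _ hx hy => rw [map_add, map_add, hx, hy]
    | inv x _ hx => rw [map_inv₀, map_inv₀, hx]
    | mul x y _ _ hx hy => rw [map_mul, map_mul, hx, hy]
  ext x
  exact h1 x (by rw [hgen]; trivial)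

/-- The complex conjugation of `ℚ(π)`, for a Weil number `π`. -/
theorem exists_conj (π : K) (hgen : ℚ⟮π⟯ = ⊤) (q : ℕ) (hq : 0 < q)
    (hweil : ∀ φ : K →+* ℂ, ‖φ π‖ ^ 2 = q) :
    ∃ c : K →ₐ[ℚ] K, c π = q / π ∧ (∀ φ : K →ₐ[ℚ] ℂ, ∀ x, φ (c x) = (starRingEnd ℂ) (φ x)) := by
  have hπ0 : π ≠ 0 := by
    rintro rfl
    obtain ⟨φ⟩ : Nonempty (K →+* ℂ) := inferInstance
    have := hweil φ
    rw [map_zero, norm_zero] at this
    norm_num at this
    exact hq.ne' (by exact_mod_cast this.symm)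
  have hconj : ∀ φ : K →+* ℂ, (starRingEnd ℂ) (φ π) = φ (q / π) := by
    intro φ
    have h1 : φ π ≠ 0 := (map_ne_zero φ).2 hπ0
    rw [map_div₀, map_natCast, eq_div_iff h1, mul_comm, Complex.mul_conj, Complex.normSq_eq_norm_sq,
      hweil]
    simp
  have hroot : Polynomial.aeval (q / π : K) (minpoly ℚ π) = 0 := by
    obtain ⟨φ₀⟩ : Nonempty (K →+* ℂ) := inferInstance
    let φ : K →ₐ[ℚ] ℂ := RingHom.toRatAlgHom φ₀
    apply φ₀.injective
    rw [map_zero]
    show φ (Polynomial.aeval (q / π : K) (minpoly ℚ π)) = 0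
    rw [← Polynomial.aeval_algHom_apply]
    have h3 : φ (q / π) = (starRingEnd ℂ) (φ π) := (hconj φ₀).symm
    have h4 : (starRingEnd ℂ) (φ π) = ((Complex.conjAe.restrictScalars ℚ).toAlgHom.comp φ) π := rfl
    rw [h3, h4, Polynomial.aeval_algHom_apply, minpoly.aeval, map_zero]
  obtain ⟨c, hc⟩ := exists_hom π (Algebra.IsIntegral.isIntegral π) hgen (q / π : K) hroot
  refine ⟨c, hc, ?_⟩
  intro φ x
  have h1 : φ.comp c = (Complex.conjAe.restrictScalars ℚ).toAlgHom.comp φ := by
    apply hom_ext_gen π hgen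
    show φ (c π) = (starRingEnd ℂ) (φ π)
    rw [hc]
    exact (hconj φ.toRingHom).symm
  exact AlgHom.congr_fun h1 x

end Conj

section Main

open Finset

variable {K : Type*} [Field K] [NumberField K] {F : Type*} [Field F] [NumberField F] [Algebra F K]
  {C : Type*} [Field C] [CharZero C] [IsAlgClosed C]

/-- The Galois orbit statement: multiplicities of conjugates of `π` are symmetric. -/
theorem count_symm (ν : C →* ℝ) (q : ℕ) (hq : 0 < q) (hν0 : 0 < ν q) (hν1 : ν q ≠ 1)
    (π : K) (hgen : ℚ⟮π⟯ = ⊤) (hweil : ∀ φ : K →+* ℂ, ‖φ π‖ ^ 2 = q)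
    (htr : ∀ (φ : F →+* ℂ) (x : F), (starRingEnd ℂ) (φ x) = φ x)
    (k : ℕ) (hdeg : finrank F K = 2 ^ (k + 1))
    (N : ℕ) (n : (K →+* C) → ℤ)
    (hn : ∀ τ : K →+* C, ν (τ π) ^ (2 * N) = (ν q) ^ ((N : ℤ) + n τ))
    (ι₀ : F →+* C) (ε : ℤ) (hε : Even ε ∨ 4 ∣ finrank ℚ K)
    (hout : ∀ τ : K →+* C, τ.comp (algebraMap F K) ≠ ι₀ → Even (n τ - ε))
    (hin : Nat.card {τ : K →+* C // τ.comp (algebraMap F K) = ι₀ ∧ Odd (n τ - ε)} % 4 = 2)
    (L : IntermediateField ℚ C) (hL : L = IntermediateField.normalClosure ℚ K C)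
    (M : Multiset (K →ₐ[ℚ] L)) (j s : ℕ) (hs : 0 < s)
    (hM : M.card = 2 * j)
    (hprod : (M.map (fun φ => φ π)).prod ^ s = (q : L) ^ (s * j))
    (c : K →ₐ[ℚ] K) (hc : c π = q / π)
    [DecidableEq (K →ₐ[ℚ] L)] :
    c π ≠ π ∧ ∀ φ, M.count φ = M.count (φ.comp c) := by
  classical
  have hfd : FiniteDimensional ℚ L := by rw [hL]; infer_instance
  have hπ0 : π ≠ 0 := by
    rintro rfl
    obtain ⟨φ⟩ : Nonempty (K →+* ℂ) := inferInstance
    have := hweil φ
    rw [map_zero, norm_zero] at this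
    norm_num at this
    exact hq.ne' (by exact_mod_cast this.symm)
  have hqK : (q : K) ≠ 0 := by exact_mod_cast hq.ne'
  have hπint : IsIntegral ℚ π := Algebra.IsIntegral.isIntegral π
  -- c is an involution
  have hcc : c.comp c = AlgHom.id ℚ K := by
    apply hom_ext_gen π hgen
    show c (c π) = π
    rw [hc, map_div₀, map_natCast, hc, div_div_cancel₀ hqK]
  -- c fixes F
  have hcF : ∀ x : F, c (algebraMap F K x) = algebraMap F K x := by
    intro x
    obtain ⟨φ₀⟩ : Nonempty (K →+* ℂ) := inferInstance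
    apply φ₀.injective
    have h1 : (RingHom.toRatAlgHom φ₀).comp c =
        (Complex.conjAe.restrictScalars ℚ).toAlgHom.comp (RingHom.toRatAlgHom φ₀) := by
      apply hom_ext_gen π hgen
      show φ₀ (c π) = (starRingEnd ℂ) (φ₀ π)
      have h2 : φ₀ π ≠ 0 := (map_ne_zero φ₀).2 hπ0
      rw [hc, map_div₀, map_natCast, div_eq_iff h2, mul_comm, Complex.mul_conj,
        Complex.normSq_eq_norm_sq, hweil]
      simp
    have h3 : φ₀ (c (algebraMap F K x)) = (starRingEnd ℂ) (φ₀ (algebraMap F K x)) :=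
      AlgHom.congr_fun h1 (algebraMap F K x)
    rw [h3]
    exact htr (φ₀.comp (algebraMap F K)) x
  -- the p-adic exponent of the conjugate
  have hzinj : ∀ a b : ℤ, (ν q) ^ a = (ν q) ^ b → a = b := by
    intro a b h
    exact zpow_right_injective₀ hν0 hν1 h
  have hνmul : ∀ τ : K →+* C, ν (τ π) * ν (τ (c π)) = ν q := by
    intro τ
    rw [← map_mul, ← map_mul, hc, mul_div_cancel₀ _ hπ0, map_natCast]
  have hnc : ∀ τ : K →+* C, n (τ.comp c.toRingHom) = - n τ := by
    intro τ
    have h1 := hn τ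
    have h2 := hn (τ.comp c.toRingHom)
    have h3 : (τ.comp c.toRingHom) π = τ (c π) := rfl
    rw [h3] at h2
    have h4 : (ν (τ π) * ν (τ (c π))) ^ (2 * N) = (ν q) ^ (2 * N) := by rw [hνmul]
    rw [mul_pow, h1, h2, ← zpow_add₀ hν0.ne', ← zpow_natCast] at h4
    have := hzinj _ _ h4
    push_cast at this
    omega
  -- bijection between embeddings into L and into C
  obtain ⟨emb, hemb⟩ : ∃ emb : (K →ₐ[ℚ] L) ≃ (K →+* C), ∀ φ x, emb φ x = (φ x : C) := by
    subst hL
    exact ⟨(normalClosure.algHomEquiv ℚ K C).trans (RingHom.equivRatAlgHom K C).symm,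
      fun φ x => rfl⟩
  let nX : (K →ₐ[ℚ] L) → ℤ := fun φ => n (emb φ)
  -- the Galois group
  let act : MulAction (L ≃ₐ[ℚ] L) (K →ₐ[ℚ] L) :=
    { smul := fun σ φ => (σ : L →ₐ[ℚ] L).comp φ
      one_smul := fun φ => by ext x; rfl
      mul_smul := fun a b φ => by ext x; rfl }
  let actF : MulAction (L ≃ₐ[ℚ] L) (F →ₐ[ℚ] L) :=
    { smul := fun σ φ => (σ : L →ₐ[ℚ] L).comp φ
      one_smul := fun φ => by ext x; rfl
      mul_smul := fun a b φ => by ext x; rfl }
  have hsmul : ∀ (σ : L ≃ₐ[ℚ] L) (φ : K →ₐ[ℚ] L) (x : K), (σ • φ) x = σ (φ x) :=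
    fun σ φ x => rfl
  have hsmulF : ∀ (σ : L ≃ₐ[ℚ] L) (φ : F →ₐ[ℚ] L) (x : F), (σ • φ) x = σ (φ x) :=
    fun σ φ x => rfl
  have hnormal : Normal ℚ L := by
    subst hL
    have : IsNormalClosure ℚ K (IntermediateField.normalClosure ℚ K C) :=
      Algebra.IsAlgebraic.isNormalClosure_normalClosure (F := ℚ) (K := K) (L := C)
        (fun x => IsAlgClosed.splits _)
    exact this.normal
  have htrans : IsPretransitive (L ≃ₐ[ℚ] L) (K →ₐ[ℚ] L) := by
    constructor
    intro φ ψ
    have h1 : Polynomial.aeval (φ π) (minpoly ℚ (ψ π)) = 0 := by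
      rw [minpoly.algHom_eq ψ ψ.injective, ← minpoly.algHom_eq φ φ.injective, minpoly.aeval]
    obtain ⟨σ, hσ⟩ := minpoly.exists_algEquiv_of_root
      (Algebra.IsAlgebraic.isAlgebraic (R := ℚ) (ψ π)) h1
    refine ⟨σ, ?_⟩
    apply hom_ext_gen π hgen
    rw [hsmul, hσ]
  let bar : (K →ₐ[ℚ] L) → (K →ₐ[ℚ] L) := fun φ => φ.comp c
  have hbb : ∀ φ, bar (bar φ) = φ := by
    intro φ
    show (φ.comp c).comp c = φ
    rw [AlgHom.comp_assoc, hcc, AlgHom.comp_id]
  have hbG : ∀ (σ : L ≃ₐ[ℚ] L) φ, bar (σ • φ) = σ • bar φ := by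
    intro σ φ; rfl
  let f : (K →ₐ[ℚ] L) → (F →ₐ[ℚ] L) := fun φ =>
    φ.comp ((algebraMap F K).toRatAlgHom)
  have hfapp : ∀ φ x, f φ x = φ (algebraMap F K x) := fun φ x => rfl
  have hf : ∀ (σ : L ≃ₐ[ℚ] L) φ, f (σ • φ) = σ • f φ := by
    intro σ φ; rfl
  have hfb : ∀ φ, f (bar φ) = f φ := by
    intro φ
    apply AlgHom.ext
    intro x
    rw [hfapp, hfapp]
    show φ (c (algebraMap F K x)) = _
    rw [hcF]
  -- the condition outside of the block cannot hold vacuously: find a point of the block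
  have hne : Nonempty {τ : K →+* C // τ.comp (algebraMap F K) = ι₀ ∧ Odd (n τ - ε)} := by
    by_contra hcon
    rw [not_nonempty_iff] at hcon
    rw [Nat.card_of_isEmpty] at hin
    omega
  obtain ⟨⟨τ₀, hτ₀, hτ₀odd⟩⟩ := hne
  let y₀ : F →ₐ[ℚ] L := f (emb.symm τ₀)
  have hy₀ : ∀ φ, f φ = y₀ ↔ (emb φ).comp (algebraMap F K) = ι₀ := by
    intro φ
    have e1 : ∀ x : F, ((y₀ x : L) : C) = ι₀ x := by
      intro x
      rw [← hτ₀]
      have e2 := hemb (emb.symm τ₀) (algebraMap F K x)
      rw [Equiv.apply_symm_apply] at e2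
      exact e2.symm
    constructor
    · intro h
      ext x
      rw [RingHom.comp_apply, hemb, ← e1, ← h]; rfl
    · intro h
      ext x
      rw [e1, ← h, RingHom.comp_apply, hemb]; rfl
  have hblock : (univ.filter (fun φ => f φ = y₀)).card = 2 ^ (k + 1) := by
    rw [← hdeg]
    let _ : Algebra F C := ι₀.toAlgebra
    rw [← AlgHom.card F K C]
    rw [← Fintype.card_subtype]
    apply Fintype.card_congr
    refine
      { toFun := fun φ =>
          { (emb φ.1) with
            commutes' := fun x => by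
              have := (hy₀ φ.1).1 φ.2
              exact RingHom.congr_fun this x }
        invFun := fun ψ => ⟨emb.symm ψ.toRingHom, by
          rw [hy₀, Equiv.apply_symm_apply]
          ext x
          exact ψ.commutes x⟩
        left_inv := fun φ => by
          apply Subtype.ext
          exact emb.symm_apply_apply φ.1
        right_inv := fun ψ => by
          ext x
          show emb (emb.symm ψ.toRingHom) x = ψ x
          rw [Equiv.apply_symm_apply]; rfl }
  have hcardX : Fintype.card (K →ₐ[ℚ] L) = finrank ℚ K := by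
    rw [Fintype.card_congr emb]
    exact NumberField.Embeddings.card K C
  have hembbar : ∀ φ, emb (bar φ) = (emb φ).comp c.toRingHom := by
    intro φ
    ext x
    rw [hemb]
    show _ = emb φ (c x)
    rw [hemb]; rfl
  have hnb : ∀ φ, nX (bar φ) = - nX φ := by
    intro φ
    show n (emb (bar φ)) = _
    rw [hembbar]
    exact hnc (emb φ)
  have hin' : (univ.filter (fun φ => f φ = y₀ ∧ Odd (nX φ - ε))).card % 4 = 2 := by
    rw [← hin, ← Fintype.card_subtype, Nat.card_eq_fintype_card]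
    congr 1
    apply Fintype.card_congr
    apply Equiv.subtypeEquiv emb
    intro φ
    rw [hy₀]
  -- c π ≠ π
  have hcπ : c π ≠ π := by
    intro hcp
    have hcid : c = AlgHom.id ℚ K := hom_ext_gen π hgen _ _ hcp
    have hn0 : ∀ τ, n τ = 0 := by
      intro τ
      have h1 := hnc τ
      have h2 : τ.comp c.toRingHom = τ := by
        ext x
        show τ (c x) = τ x
        rw [hcid]; rfl
      rw [h2] at h1
      omega
    rcases hε with he | h4
    · rw [hn0, Int.odd_iff] at hτ₀odd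
      rw [Int.even_iff] at he
      omega
    · have hsq : π ^ 2 = q := by
        rw [hc] at hcp
        rw [div_eq_iff hπ0] at hcp
        rw [pow_two]; exact hcp.symm
      have hdvd : minpoly ℚ π ∣ (Polynomial.X ^ 2 - Polynomial.C (q : ℚ)) := by
        apply minpoly.dvd
        simp [hsq]
      have hle : finrank ℚ K ≤ 2 := by
        have h5 : finrank ℚ K = (minpoly ℚ π).natDegree := by
          rw [← IntermediateField.adjoin.finrank hπint, hgen, IntermediateField.finrank_top']
        rw [h5]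
        have h6 := Polynomial.natDegree_le_of_dvd hdvd
          (Polynomial.X_pow_sub_C_ne_zero (by norm_num) _)
        rwa [Polynomial.natDegree_X_pow_sub_C] at h6
      have hpos : 0 < finrank ℚ K := finrank_pos
      omega
  have hbf : ∀ φ, bar φ ≠ φ := by
    intro φ h
    apply hcπ
    apply φ.injective
    exact AlgHom.congr_fun h π
  refine ⟨hcπ, ?_⟩
  -- the relation gives orthogonality
  have horth : ∀ σ : L ≃ₐ[ℚ] L, (M.map (fun φ => nX (σ • φ))).sum = 0 := by
    intro σ
    have h1 := congrArg (fun z : L => ν ((σ z : L) : C)) hprod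
    simp only [map_pow, map_natCast] at h1
    have h2 : ∀ M' : Multiset (K →ₐ[ℚ] L),
        ν ((σ ((M'.map (fun φ => φ π)).prod) : L) : C) ^ (2 * N) =
          (ν q) ^ ((N : ℤ) * M'.card + (M'.map (fun φ => nX (σ • φ))).sum) := by
      intro M'
      induction M' using Multiset.induction_on with
      | empty => simp
      | cons φ M' ih =>
        rw [Multiset.map_cons, Multiset.prod_cons, map_mul]
        have h3 : ((σ (φ π) * σ ((M'.map (fun φ => φ π)).prod) : L) : C) =
          ((σ (φ π) : L) : C) * ((σ ((M'.map (fun φ => φ π)).prod) : L) : C) := rfl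
        rw [h3, map_mul, mul_pow, ih]
        have h4 : ν ((σ (φ π) : L) : C) ^ (2 * N) = (ν q) ^ ((N : ℤ) + nX (σ • φ)) := by
          have := hn (emb (σ • φ))
          rw [hemb] at this
          exact this
        rw [h4, ← zpow_add₀ hν0.ne', Multiset.card_cons, Multiset.map_cons, Multiset.sum_cons]
        congr 1
        push_cast
        ring
    have h5 : (((ν q) ^ ((N : ℤ) * M.card + (M.map (fun φ => nX (σ • φ))).sum)) ^ s : ℝ) =
        (ν q) ^ ((s : ℤ) * j * (2 * N)) := by
      rw [← h2 M, ← pow_mul, mul_comm (2 * N) s, pow_mul]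
      have h6 : ν ((σ ((M.map (fun φ => φ π)).prod) : L) : C) ^ s = ν (q : C) ^ (s * j) := by
        rw [← map_pow, ← map_pow]
        have h7 := congrArg (fun z : L => (σ z : L)) hprod
        simp only [map_pow, map_natCast] at h7
        have h8 := congrArg (fun z : L => (z : C)) h7
        simp only [IntermediateField.coe_pow] at h8
        rw [h8]
        rfl
      rw [h6, ← pow_mul, ← zpow_natCast]
      congr 1
    rw [← zpow_natCast, ← zpow_mul] at h5
    have h6 := hzinj _ _ h5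
    rw [hM] at h6
    have hs' : (s : ℤ) ≠ 0 := by exact_mod_cast hs.ne'
    have h7 : (s : ℤ) * (M.map (fun φ => nX (σ • φ))).sum = 0 := by
      push_cast at h6
      linear_combination h6
    exact (mul_eq_zero.1 h7).resolve_left hs'
  -- conclude
  let z : (K →ₐ[ℚ] L) → ℤ := fun φ => (M.count φ : ℤ) - M.count (bar φ)
  have hzb : ∀ φ, z (bar φ) = - z φ := by
    intro φ
    show (M.count (bar φ) : ℤ) - M.count (bar (bar φ)) = -((M.count φ : ℤ) - M.count (bar φ))
    rw [hbb]; ring
  have hsumcount : ∀ g : (K →ₐ[ℚ] L) → ℤ, (M.map g).sum = ∑ φ, (M.count φ : ℤ) * g φ := by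
    intro g
    rw [Finset.sum_multiset_map_count]
    rw [Finset.sum_subset (Finset.subset_univ _)]
    · apply Finset.sum_congr rfl
      intro φ _
      rw [nsmul_eq_mul]
    · intro φ _ hφ
      rw [Multiset.mem_toFinset, ← Multiset.count_eq_zero] at hφ
      rw [hφ, zero_smul]
  have hz : ∀ σ : L ≃ₐ[ℚ] L, ∑ φ, z φ * nX (σ • φ) = 0 := by
    intro σ
    have e1 : ∑ φ, (M.count φ : ℤ) * nX (σ • φ) = 0 := by
      rw [← hsumcount (fun φ => nX (σ • φ))]; exact horth σ
    have e2 : ∑ φ, (M.count (bar φ) : ℤ) * nX (σ • φ) = 0 := by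
      have e3 : ∑ φ, (M.count (bar φ) : ℤ) * nX (σ • φ) =
          ∑ φ, (M.count φ : ℤ) * nX (σ • bar φ) := by
        apply Finset.sum_nbij' (i := bar) (j := bar)
        · intro φ _; exact mem_univ _
        · intro φ _; exact mem_univ _
        · intro φ _; exact hbb φ
        · intro φ _; exact hbb φ
        · intro φ _; rw [hbb]
      rw [e3]
      have e4 : ∀ φ, (M.count φ : ℤ) * nX (σ • bar φ) = - ((M.count φ : ℤ) * nX (σ • φ)) := by
        intro φ
        rw [← hbG, hnb]; ring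
      rw [Finset.sum_congr rfl (fun φ _ => e4 φ), Finset.sum_neg_distrib, e1, neg_zero]
    have e5 : ∀ φ, z φ * nX (σ • φ) = (M.count φ : ℤ) * nX (σ • φ) -
        (M.count (bar φ) : ℤ) * nX (σ • φ) := by
      intro φ
      show ((M.count φ : ℤ) - M.count (bar φ)) * _ = _
      ring
    rw [Finset.sum_congr rfl (fun φ _ => e5 φ), Finset.sum_sub_distrib, e1, e2, sub_zero]
  have hz0 := odd_orthogonal_zero (G := L ≃ₐ[ℚ] L) bar hbb hbf hbG f hf hfb y₀ k hblock nX hnb ε
    (by rw [hcardX]; exact hε)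
    (by
      intro φ hφ
      apply hout (emb φ)
      rwa [Ne, ← hy₀])
    hin' z hzb hz
  intro φ
  have := hz0 φ
  have h9 : (M.count φ : ℤ) - M.count (bar φ) = 0 := this
  have h10 : (M.count φ : ℤ) = M.count (bar φ) := by linarith
  exact_mod_cast h10

/-- The symmetric multiplicities for roots in an arbitrary algebraically closed field. -/
theorem count_symm_roots (ν : C →* ℝ) (q : ℕ) (hq : 0 < q) (hν0 : 0 < ν q) (hν1 : ν q ≠ 1)
    (π : K) (hgen : ℚ⟮π⟯ = ⊤) (hweil : ∀ φ : K →+* ℂ, ‖φ π‖ ^ 2 = q)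
    (htr : ∀ (φ : F →+* ℂ) (x : F), (starRingEnd ℂ) (φ x) = φ x)
    (k : ℕ) (hdeg : finrank F K = 2 ^ (k + 1))
    (N : ℕ) (n : (K →+* C) → ℤ)
    (hn : ∀ τ : K →+* C, ν (τ π) ^ (2 * N) = (ν q) ^ ((N : ℤ) + n τ))
    (ι₀ : F →+* C) (ε : ℤ) (hε : Even ε ∨ 4 ∣ finrank ℚ K)
    (hout : ∀ τ : K →+* C, τ.comp (algebraMap F K) ≠ ι₀ → Even (n τ - ε))
    (hin : Nat.card {τ : K →+* C // τ.comp (algebraMap F K) = ι₀ ∧ Odd (n τ - ε)} % 4 = 2)
    {Ω : Type*} [Field Ω] [CharZero Ω] [IsAlgClosed Ω] [DecidableEq Ω] :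
    (∀ l : Ω, Polynomial.aeval l (minpoly ℚ π) = 0 → l ≠ 0 ∧ l * l ≠ q) ∧
    ∀ (Λ : Multiset Ω) (j s : ℕ), 0 < s → Λ.card = 2 * j →
    (∀ l ∈ Λ, Polynomial.aeval l (minpoly ℚ π) = 0) →
    Λ.prod ^ s = (q : Ω) ^ (s * j) → ∀ l : Ω, Λ.count l = Λ.count (q / l) := by
  classical
  obtain ⟨c, hc, -⟩ := exists_conj π hgen q hq hweil
  let L := IntermediateField.normalClosure ℚ K C
  have hfd : FiniteDimensional ℚ L := inferInstance
  -- an embedding of `L` into `Ω`
  let e : L →ₐ[ℚ] Ω := IsAlgClosed.lift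
  have hπ0 : π ≠ 0 := by
    rintro rfl
    obtain ⟨φ⟩ : Nonempty (K →+* ℂ) := inferInstance
    have := hweil φ
    rw [map_zero, norm_zero] at this
    norm_num at this
    exact hq.ne' (by exact_mod_cast this.symm)
  -- minimal polynomial splits in L
  have hnc : IsNormalClosure ℚ K L :=
    Algebra.IsAlgebraic.isNormalClosure_normalClosure (F := ℚ) (K := K) (L := C)
      (fun x => IsAlgClosed.splits _)
  have hsplit : ((minpoly ℚ π).map (algebraMap ℚ L)).Splits := hnc.splits π
  have hroot : ∀ l : Ω, Polynomial.aeval l (minpoly ℚ π) = 0 →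
      ∃ φ : K →ₐ[ℚ] L, e (φ π) = l := by
    intro l hl
    have h1 : ((minpoly ℚ π).map (algebraMap ℚ Ω)).roots =
        (((minpoly ℚ π).map (algebraMap ℚ L)).roots).map e := by
      have h2 : (minpoly ℚ π).map (algebraMap ℚ Ω) =
          ((minpoly ℚ π).map (algebraMap ℚ L)).map e.toRingHom := by
        rw [Polynomial.map_map]
        congr 1
        exact (AlgHom.comp_algebraMap e).symm
      rw [h2]
      exact (hsplit.roots_map e.toRingHom)
    have hne : (minpoly ℚ π).map (algebraMap ℚ Ω) ≠ 0 :=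
      Polynomial.map_ne_zero (minpoly.ne_zero (Algebra.IsIntegral.isIntegral π))
    have h3 : l ∈ ((minpoly ℚ π).map (algebraMap ℚ Ω)).roots := by
      rw [Polynomial.mem_roots hne, Polynomial.IsRoot, Polynomial.eval_map_algebraMap]
      exact hl
    rw [h1, Multiset.mem_map] at h3
    obtain ⟨y, hy, rfl⟩ := h3
    have hy2 : Polynomial.aeval y (minpoly ℚ π) = 0 := by
      have h4 := (Polynomial.mem_roots'.1 hy).2
      rwa [Polynomial.IsRoot, Polynomial.eval_map_algebraMap] at h4
    obtain ⟨φ, hφ⟩ := exists_hom π (Algebra.IsIntegral.isIntegral π) hgen y hy2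
    exact ⟨φ, by rw [hφ]⟩
  have key := fun (M : Multiset (K →ₐ[ℚ] L)) (j s : ℕ) (hs : 0 < s) (hM : M.card = 2 * j)
    (hprod : (M.map (fun φ => φ π)).prod ^ s = (q : L) ^ (s * j)) =>
    count_symm ν q hq hν0 hν1 π hgen hweil htr k hdeg N n hn ι₀ ε hε hout hin L rfl M j s hs hM
      hprod c hc
  have hcne : c π ≠ π := (key 0 0 1 one_pos (by simp) (by simp)).1
  have hqΩ : (q : Ω) ≠ 0 := by exact_mod_cast hq.ne'
  constructor
  · intro l hl
    obtain ⟨φ, rfl⟩ := hroot l hl
    have h1 : e (φ π) ≠ 0 := by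
      rw [Ne, map_eq_zero, map_eq_zero]; exact hπ0
    refine ⟨h1, ?_⟩
    intro h2
    apply hcne
    have h3 : e (φ (π * π)) = e (φ (q : K)) := by
      rw [map_mul, map_mul, h2, map_natCast, map_natCast]
    have h4 : π * π = q := φ.injective (e.injective h3)
    rw [hc, ← h4, mul_div_assoc, div_self hπ0, mul_one]
  · intro Λ j s hs hcard hroots hprod l
    -- lift the multiset
    obtain ⟨φ₁⟩ : Nonempty (K →ₐ[ℚ] L) := by
      obtain ⟨y, hy⟩ := IsAlgClosed.exists_aeval_eq_zero Ω (minpoly ℚ π)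
        (minpoly.degree_pos (Algebra.IsIntegral.isIntegral π)).ne'
      obtain ⟨φ, -⟩ := hroot y hy
      exact ⟨φ⟩
    let g : Ω → (K →ₐ[ℚ] L) := fun l =>
      if h : ∃ φ : K →ₐ[ℚ] L, e (φ π) = l then h.choose else φ₁
    have hg : ∀ l ∈ Λ, e ((g l) π) = l := by
      intro l hl
      have h := hroot l (hroots l hl)
      simp only [g, dif_pos h]
      exact h.choose_spec
    let M := Λ.map g
    have hΛ : Λ = M.map (fun φ => e (φ π)) := by
      rw [Multiset.map_map]
      symm
      conv_rhs => rw [← Multiset.map_id Λ]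
      apply Multiset.map_congr rfl
      intro l hl
      exact hg l hl
    have hinj : Function.Injective (fun φ : K →ₐ[ℚ] L => e (φ π)) := by
      intro φ ψ h
      exact hom_ext_gen π hgen φ ψ (e.injective h)
    have hM : M.card = 2 * j := by rw [Multiset.card_map]; exact hcard
    have hprodL : (M.map (fun φ => φ π)).prod ^ s = (q : L) ^ (s * j) := by
      apply e.injective
      rw [map_pow, map_pow, map_natCast, ← hprod]
      congr 1
      rw [hΛ, map_multiset_prod, Multiset.map_map]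
      rfl
    have hcount := (key M j s hs hM hprodL).2
    have hcount2 : ∀ φ : K →ₐ[ℚ] L, Λ.count (e (φ π)) = M.count φ := by
      intro φ
      rw [hΛ]
      exact Multiset.count_map_eq_count' (fun φ : K →ₐ[ℚ] L => e (φ π)) M hinj φ
    have hqd : ∀ φ : K →ₐ[ℚ] L, (q : Ω) / e (φ π) = e ((φ.comp c) π) := by
      intro φ
      show _ = e (φ (c π))
      rw [hc, map_div₀, map_div₀, map_natCast, map_natCast]
    by_cases h : ∃ φ : K →ₐ[ℚ] L, e (φ π) = l
    · obtain ⟨φ, rfl⟩ := h
      rw [hqd, hcount2, hcount2]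
      exact hcount φ
    · by_cases h' : ∃ φ : K →ₐ[ℚ] L, e (φ π) = q / l
      · exfalso
        obtain ⟨φ, hφ⟩ := h'
        apply h
        refine ⟨φ.comp c, ?_⟩
        rw [← hqd, hφ, div_div_cancel₀ hqΩ]
      · have h1 : l ∉ Λ := fun hl => h (hroot l (hroots l hl))
        have h2 : (q : Ω) / l ∉ Λ := fun hl => h' (hroot _ (hroots _ hl))
        rw [Multiset.count_eq_zero_of_notMem h1, Multiset.count_eq_zero_of_notMem h2]

end Main

end Pool.Agent.H924R2
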