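import Mathlib
import Pool.Agent.H924R2.OddPrime
import Pool.Agent.H924R2.Weil

/-!
Number theoretic part for odd primes.
-/

namespace Pool.Agent.H924R2

open Module MulAction
open scoped IntermediateField

section Main

open Finset

variable {K : Type*} [Field K] [NumberField K] {F : Type*} [Field F] [NumberField F] [Algebra F K]
  {C : Type*} [Field C] [CharZero C] [IsAlgClosed C]

/-- The Galois orbit statement: multiplicities of conjugates of `π` are symmetric. -/
theorem count_symm_r (ν : C →* ℝ) (q : ℕ) (hq : 0 < q) (hν0 : 0 < ν q) (hν1 : ν q ≠ 1)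
    (π : K) (hgen : ℚ⟮π⟯ = ⊤) (hweil : ∀ φ : K →+* ℂ, ‖φ π‖ ^ 2 = q)
    (htr : ∀ (φ : F →+* ℂ) (x : F), (starRingEnd ℂ) (φ x) = φ x)
    (K₀ : IntermediateField F K) (hK₀ : ∃ x ∈ K₀, ∃ φ : K →+* ℂ, (starRingEnd ℂ) (φ x) ≠ φ x)
    (r : ℕ) [Fact r.Prime] (hr : r ≠ 2) (k : ℕ) (hdeg : finrank F K = 2 * r ^ k)
    (N : ℕ) (n : (K →+* C) → ℤ)
    (hn : ∀ τ : K →+* C, ν (τ π) ^ (2 * N) = (ν q) ^ ((N : ℤ) + n τ))
    (ι₀ : F →+* C)
    (hout : ∀ τ : K →+* C, τ.comp (algebraMap F K) ≠ ι₀ → (r : ℤ) ∣ n τ)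
    (hin : ∀ T : Finset (K →+* C), (∀ τ ∈ T, τ.comp (algebraMap F K) = ι₀) →
      (∀ τ τ' : K →+* C, τ.comp (algebraMap F K) = ι₀ → τ π * τ' π = q → (τ ∈ T ↔ τ' ∉ T)) →
      (∀ τ τ' : K →+* C, (∀ x ∈ K₀, τ x = τ' x) → τ ∈ T → τ' ∈ T) →
      ¬ (r : ℤ) ∣ ∑ τ ∈ T, n τ)
    (L : IntermediateField ℚ C) (hL : L = IntermediateField.normalClosure ℚ K C)
    (M : Multiset (K →ₐ[ℚ] L)) (j s : ℕ) (hs : 0 < s)
    (hM : M.card = 2 * j)
    (hprod : (M.map (fun φ => φ π)).prod ^ s = (q : L) ^ (s * j))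
    (c : K →ₐ[ℚ] K) (hc : c π = q / π)
    [DecidableEq (K →ₐ[ℚ] L)] :
    c π ≠ π ∧ ∀ φ, M.count φ = M.count (φ.comp c) := by
  classical
  have hfd : FiniteDimensional ℚ L := by rw [hL]; infer_instance
  have hπ0 : π ≠ 0 := by
    rintro rfl
    obtain ⟨φ⟩ : Nonempty (K →+* ℂ) := inferInstance
    have := hweil φ
    rw [map_zero, norm_zero] at this
    norm_num at this
    exact hq.ne' (by exact_mod_cast this.symm)
  have hqK : (q : K) ≠ 0 := by exact_mod_cast hq.ne'
  have hπint : IsIntegral ℚ π := Algebra.IsIntegral.isIntegral π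
  -- c is an involution
  have hcc : c.comp c = AlgHom.id ℚ K := by
    apply hom_ext_gen π hgen
    show c (c π) = π
    rw [hc, map_div₀, map_natCast, hc, div_div_cancel₀ hqK]
  -- c is compatible with complex conjugation
  have hcconj : ∀ (φ₀ : K →+* ℂ) (x : K), φ₀ (c x) = (starRingEnd ℂ) (φ₀ x) := by
    intro φ₀ x
    have h1 : (RingHom.toRatAlgHom φ₀).comp c =
        (Complex.conjAe.restrictScalars ℚ).toAlgHom.comp (RingHom.toRatAlgHom φ₀) := by
      apply hom_ext_gen π hgen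
      show φ₀ (c π) = (starRingEnd ℂ) (φ₀ π)
      have h2 : φ₀ π ≠ 0 := (map_ne_zero φ₀).2 hπ0
      rw [hc, map_div₀, map_natCast, div_eq_iff h2, mul_comm, Complex.mul_conj,
        Complex.normSq_eq_norm_sq, hweil]
      simp
    exact AlgHom.congr_fun h1 x
  -- c fixes F
  have hcF : ∀ x : F, c (algebraMap F K x) = algebraMap F K x := by
    intro x
    obtain ⟨φ₀⟩ : Nonempty (K →+* ℂ) := inferInstance
    apply φ₀.injective
    have h1 : (RingHom.toRatAlgHom φ₀).comp c =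
        (Complex.conjAe.restrictScalars ℚ).toAlgHom.comp (RingHom.toRatAlgHom φ₀) := by
      apply hom_ext_gen π hgen
      show φ₀ (c π) = (starRingEnd ℂ) (φ₀ π)
      have h2 : φ₀ π ≠ 0 := (map_ne_zero φ₀).2 hπ0
      rw [hc, map_div₀, map_natCast, div_eq_iff h2, mul_comm, Complex.mul_conj,
        Complex.normSq_eq_norm_sq, hweil]
      simp
    have h3 : φ₀ (c (algebraMap F K x)) = (starRingEnd ℂ) (φ₀ (algebraMap F K x)) :=
      AlgHom.congr_fun h1 (algebraMap F K x)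
    rw [h3]
    exact htr (φ₀.comp (algebraMap F K)) x
  -- the p-adic exponent of the conjugate
  have hzinj : ∀ a b : ℤ, (ν q) ^ a = (ν q) ^ b → a = b := by
    intro a b h
    exact zpow_right_injective₀ hν0 hν1 h
  have hνmul : ∀ τ : K →+* C, ν (τ π) * ν (τ (c π)) = ν q := by
    intro τ
    rw [← map_mul, ← map_mul, hc, mul_div_cancel₀ _ hπ0, map_natCast]
  have hnc : ∀ τ : K →+* C, n (τ.comp c.toRingHom) = - n τ := by
    intro τ
    have h1 := hn τ
    have h2 := hn (τ.comp c.toRingHom)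
    have h3 : (τ.comp c.toRingHom) π = τ (c π) := rfl
    rw [h3] at h2
    have h4 : (ν (τ π) * ν (τ (c π))) ^ (2 * N) = (ν q) ^ (2 * N) := by rw [hνmul]
    rw [mul_pow, h1, h2, ← zpow_add₀ hν0.ne', ← zpow_natCast] at h4
    have := hzinj _ _ h4
    push_cast at this
    omega
  -- bijection between embeddings into L and into C
  obtain ⟨emb, hemb⟩ : ∃ emb : (K →ₐ[ℚ] L) ≃ (K →+* C), ∀ φ x, emb φ x = (φ x : C) := by
    subst hL
    exact ⟨(normalClosure.algHomEquiv ℚ K C).trans (RingHom.equivRatAlgHom K C).symm,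
      fun φ x => rfl⟩
  let nX : (K →ₐ[ℚ] L) → ℤ := fun φ => n (emb φ)
  -- the Galois group
  let act : MulAction (L ≃ₐ[ℚ] L) (K →ₐ[ℚ] L) :=
    { smul := fun σ φ => (σ : L →ₐ[ℚ] L).comp φ
      one_smul := fun φ => by ext x; rfl
      mul_smul := fun a b φ => by ext x; rfl }
  let actF : MulAction (L ≃ₐ[ℚ] L) (F →ₐ[ℚ] L) :=
    { smul := fun σ φ => (σ : L →ₐ[ℚ] L).comp φ
      one_smul := fun φ => by ext x; rfl
      mul_smul := fun a b φ => by ext x; rfl }
  have hsmul : ∀ (σ : L ≃ₐ[ℚ] L) (φ : K →ₐ[ℚ] L) (x : K), (σ • φ) x = σ (φ x) :=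
    fun σ φ x => rfl
  have hsmulF : ∀ (σ : L ≃ₐ[ℚ] L) (φ : F →ₐ[ℚ] L) (x : F), (σ • φ) x = σ (φ x) :=
    fun σ φ x => rfl
  have hnormal : Normal ℚ L := by
    subst hL
    have : IsNormalClosure ℚ K (IntermediateField.normalClosure ℚ K C) :=
      Algebra.IsAlgebraic.isNormalClosure_normalClosure (F := ℚ) (K := K) (L := C)
        (fun x => IsAlgClosed.splits _)
    exact this.normal
  have htrans : IsPretransitive (L ≃ₐ[ℚ] L) (K →ₐ[ℚ] L) := by
    constructor
    intro φ ψ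
    have h1 : Polynomial.aeval (φ π) (minpoly ℚ (ψ π)) = 0 := by
      rw [minpoly.algHom_eq ψ ψ.injective, ← minpoly.algHom_eq φ φ.injective, minpoly.aeval]
    obtain ⟨σ, hσ⟩ := minpoly.exists_algEquiv_of_root
      (Algebra.IsAlgebraic.isAlgebraic (R := ℚ) (ψ π)) h1
    refine ⟨σ, ?_⟩
    apply hom_ext_gen π hgen
    rw [hsmul, hσ]
  let bar : (K →ₐ[ℚ] L) → (K →ₐ[ℚ] L) := fun φ => φ.comp c
  have hbb : ∀ φ, bar (bar φ) = φ := by
    intro φ
    show (φ.comp c).comp c = φ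
    rw [AlgHom.comp_assoc, hcc, AlgHom.comp_id]
  have hbG : ∀ (σ : L ≃ₐ[ℚ] L) φ, bar (σ • φ) = σ • bar φ := by
    intro σ φ; rfl
  let f : (K →ₐ[ℚ] L) → (F →ₐ[ℚ] L) := fun φ =>
    φ.comp ((algebraMap F K).toRatAlgHom)
  have hfapp : ∀ φ x, f φ x = φ (algebraMap F K x) := fun φ x => rfl
  have hf : ∀ (σ : L ≃ₐ[ℚ] L) φ, f (σ • φ) = σ • f φ := by
    intro σ φ; rfl
  have hfb : ∀ φ, f (bar φ) = f φ := by
    intro φ
    apply AlgHom.ext
    intro x
    rw [hfapp, hfapp]
    show φ (c (algebraMap F K x)) = _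
    rw [hcF]
  -- a point of the block
  have hne : ∃ τ : K →+* C, τ.comp (algebraMap F K) = ι₀ := by
    let _ : Algebra F C := ι₀.toAlgebra
    obtain ⟨ψ⟩ : Nonempty (K →ₐ[F] C) := ⟨IsAlgClosed.lift⟩
    refine ⟨ψ.toRingHom, ?_⟩
    ext x
    exact ψ.commutes x
  obtain ⟨τ₀, hτ₀⟩ := hne
  let y₀ : F →ₐ[ℚ] L := f (emb.symm τ₀)
  have hy₀ : ∀ φ, f φ = y₀ ↔ (emb φ).comp (algebraMap F K) = ι₀ := by
    intro φ
    have e1 : ∀ x : F, ((y₀ x : L) : C) = ι₀ x := by
      intro x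
      rw [← hτ₀]
      have e2 := hemb (emb.symm τ₀) (algebraMap F K x)
      rw [Equiv.apply_symm_apply] at e2
      exact e2.symm
    constructor
    · intro h
      ext x
      rw [RingHom.comp_apply, hemb, ← e1, ← h]; rfl
    · intro h
      ext x
      rw [e1, ← h, RingHom.comp_apply, hemb]; rfl
  have hblock : (univ.filter (fun φ => f φ = y₀)).card = 2 * r ^ k := by
    rw [← hdeg]
    let _ : Algebra F C := ι₀.toAlgebra
    rw [← AlgHom.card F K C]
    rw [← Fintype.card_subtype]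
    apply Fintype.card_congr
    refine
      { toFun := fun φ =>
          { (emb φ.1) with
            commutes' := fun x => by
              have := (hy₀ φ.1).1 φ.2
              exact RingHom.congr_fun this x }
        invFun := fun ψ => ⟨emb.symm ψ.toRingHom, by
          rw [hy₀, Equiv.apply_symm_apply]
          ext x
          exact ψ.commutes x⟩
        left_inv := fun φ => by
          apply Subtype.ext
          exact emb.symm_apply_apply φ.1
        right_inv := fun ψ => by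
          ext x
          show emb (emb.symm ψ.toRingHom) x = ψ x
          rw [Equiv.apply_symm_apply]; rfl }
  have hcardX : Fintype.card (K →ₐ[ℚ] L) = finrank ℚ K := by
    rw [Fintype.card_congr emb]
    exact NumberField.Embeddings.card K C
  have hembbar : ∀ φ, emb (bar φ) = (emb φ).comp c.toRingHom := by
    intro φ
    ext x
    rw [hemb]
    show _ = emb φ (c x)
    rw [hemb]; rfl
  have hnb : ∀ φ, nX (bar φ) = - nX φ := by
    intro φ
    show n (emb (bar φ)) = _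
    rw [hembbar]
    exact hnc (emb φ)
  -- the restriction to `K₀`
  let actZ : MulAction (L ≃ₐ[ℚ] L) (K₀ → L) :=
    { smul := fun σ u x => σ (u x)
      one_smul := fun u => rfl
      mul_smul := fun a b u => rfl }
  let ρ : (K →ₐ[ℚ] L) → (K₀ → L) := fun φ x => φ (x : K)
  have hρapp : ∀ φ (x : K₀), ρ φ x = φ (x : K) := fun φ x => rfl
  have hρ : ∀ (σ : L ≃ₐ[ℚ] L) φ, ρ (σ • φ) = σ • ρ φ := fun σ φ => rfl
  let eC : L →ₐ[ℚ] ℂ := IsAlgClosed.lift
  have hbarconj : ∀ (φ : K →ₐ[ℚ] L) (x : K), eC ((bar φ) x) = (starRingEnd ℂ) (eC (φ x)) := by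
    intro φ x
    exact hcconj ((eC.comp φ).toRingHom) x
  have hρb : ∀ φ φ', ρ φ = ρ φ' → ρ (bar φ) = ρ (bar φ') := by
    intro φ φ' h
    funext x
    have h1 : eC ((bar φ) (x : K)) = eC ((bar φ') (x : K)) := by
      rw [hbarconj, hbarconj, ← hρapp, h, hρapp]
    exact eC.injective h1
  have hρf : ∀ φ φ', ρ φ = ρ φ' → f φ = f φ' := by
    intro φ φ' h
    apply AlgHom.ext
    intro x
    rw [hfapp, hfapp]
    exact congrFun h (⟨algebraMap F K x, K₀.algebraMap_mem x⟩ : K₀)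
  have hρne : ∀ φ, ρ (bar φ) ≠ ρ φ := by
    intro φ h
    obtain ⟨x, hx, φ₀, hφ₀⟩ := hK₀
    have h1 : φ (c x) = φ x := congrFun h (⟨x, hx⟩ : K₀)
    have h2 : c x = x := φ.injective h1
    apply hφ₀
    rw [← hcconj, h2]
  have hembρ : ∀ φ φ' : K →ₐ[ℚ] L, (∀ x ∈ K₀, emb φ x = emb φ' x) → ρ φ = ρ φ' := by
    intro φ φ' h
    funext x
    have h1 := h x.1 x.2
    rw [hemb, hemb] at h1
    exact Subtype.ext h1
  have hin' : ∀ T : Finset (K →ₐ[ℚ] L), (∀ φ ∈ T, f φ = y₀) →
      (∀ φ, f φ = y₀ → (φ ∈ T ↔ bar φ ∉ T)) →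
      (∀ φ φ', ρ φ = ρ φ' → (φ ∈ T → φ' ∈ T)) → ¬ (r : ℤ) ∣ ∑ φ ∈ T, nX φ := by
    intro T hT1 hT2 hT3
    have h1 := hin (T.map emb.toEmbedding)
      (by
        intro τ hτ
        obtain ⟨φ, hφ, rfl⟩ := Finset.mem_map.1 hτ
        exact (hy₀ φ).1 (hT1 φ hφ))
      (by
        intro τ τ' hτ hττ'
        obtain ⟨φ, rfl⟩ := emb.surjective τ
        have h2 : τ' = emb (bar φ) := by
          have h6 : τ' π = emb (bar φ) π := by
            rw [hembbar]
            show τ' π = emb φ (c π)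
            have h3 : emb φ π ≠ 0 := (map_ne_zero _).2 hπ0
            rw [hc, map_div₀, map_natCast, eq_div_iff h3, mul_comm]; exact hττ'
          have h5 : RingHom.toRatAlgHom τ' = RingHom.toRatAlgHom (emb (bar φ)) := by
            apply hom_ext_gen π hgen
            show τ' π = emb (bar φ) π
            exact h6
          exact RingHom.ext fun x => AlgHom.congr_fun h5 x
        rw [h2]
        have h4 := hT2 φ ((hy₀ φ).2 hτ)
        rw [Finset.mem_map_equiv, Finset.mem_map_equiv, Equiv.symm_apply_apply,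
          Equiv.symm_apply_apply]
        exact h4)
      (by
        intro τ τ' hττ' hτ
        obtain ⟨φ, rfl⟩ := emb.surjective τ
        obtain ⟨φ', rfl⟩ := emb.surjective τ'
        rw [Finset.mem_map_equiv, Equiv.symm_apply_apply] at hτ ⊢
        exact hT3 φ φ' (hembρ φ φ' hττ') hτ)
    rw [Finset.sum_map] at h1
    exact h1
  -- c π ≠ π
  have hcπ : c π ≠ π := by
    intro hcp
    have hcid : c = AlgHom.id ℚ K := by
      apply hom_ext_gen π hgen
      exact hcp
    obtain ⟨x, hx, φ₀, hφ₀⟩ := hK₀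
    apply hφ₀
    rw [← hcconj, hcid]; rfl
  have hbf : ∀ φ, bar φ ≠ φ := by
    intro φ h
    apply hcπ
    apply φ.injective
    exact AlgHom.congr_fun h π
  refine ⟨hcπ, ?_⟩
  -- the relation gives orthogonality
  have horth : ∀ σ : L ≃ₐ[ℚ] L, (M.map (fun φ => nX (σ • φ))).sum = 0 := by
    intro σ
    have h1 := congrArg (fun z : L => ν ((σ z : L) : C)) hprod
    simp only [map_pow, map_natCast] at h1
    have h2 : ∀ M' : Multiset (K →ₐ[ℚ] L),
        ν ((σ ((M'.map (fun φ => φ π)).prod) : L) : C) ^ (2 * N) =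
          (ν q) ^ ((N : ℤ) * M'.card + (M'.map (fun φ => nX (σ • φ))).sum) := by
      intro M'
      induction M' using Multiset.induction_on with
      | empty => simp
      | cons φ M' ih =>
        rw [Multiset.map_cons, Multiset.prod_cons, map_mul]
        have h3 : ((σ (φ π) * σ ((M'.map (fun φ => φ π)).prod) : L) : C) =
          ((σ (φ π) : L) : C) * ((σ ((M'.map (fun φ => φ π)).prod) : L) : C) := rfl
        rw [h3, map_mul, mul_pow, ih]
        have h4 : ν ((σ (φ π) : L) : C) ^ (2 * N) = (ν q) ^ ((N : ℤ) + nX (σ • φ)) := by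
          have := hn (emb (σ • φ))
          rw [hemb] at this
          exact this
        rw [h4, ← zpow_add₀ hν0.ne', Multiset.card_cons, Multiset.map_cons, Multiset.sum_cons]
        congr 1
        push_cast
        ring
    have h5 : (((ν q) ^ ((N : ℤ) * M.card + (M.map (fun φ => nX (σ • φ))).sum)) ^ s : ℝ) =
        (ν q) ^ ((s : ℤ) * j * (2 * N)) := by
      rw [← h2 M, ← pow_mul, mul_comm (2 * N) s, pow_mul]
      have h6 : ν ((σ ((M.map (fun φ => φ π)).prod) : L) : C) ^ s = ν (q : C) ^ (s * j) := by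
        rw [← map_pow, ← map_pow]
        have h7 := congrArg (fun z : L => (σ z : L)) hprod
        simp only [map_pow, map_natCast] at h7
        have h8 := congrArg (fun z : L => (z : C)) h7
        simp only [IntermediateField.coe_pow] at h8
        rw [h8]
        rfl
      rw [h6, ← pow_mul, ← zpow_natCast]
      congr 1
    rw [← zpow_natCast, ← zpow_mul] at h5
    have h6 := hzinj _ _ h5
    rw [hM] at h6
    have hs' : (s : ℤ) ≠ 0 := by exact_mod_cast hs.ne'
    have h7 : (s : ℤ) * (M.map (fun φ => nX (σ • φ))).sum = 0 := by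
      push_cast at h6
      linear_combination h6
    exact (mul_eq_zero.1 h7).resolve_left hs'
  -- conclude
  let z : (K →ₐ[ℚ] L) → ℤ := fun φ => (M.count φ : ℤ) - M.count (bar φ)
  have hzb : ∀ φ, z (bar φ) = - z φ := by
    intro φ
    show (M.count (bar φ) : ℤ) - M.count (bar (bar φ)) = -((M.count φ : ℤ) - M.count (bar φ))
    rw [hbb]; ring
  have hsumcount : ∀ g : (K →ₐ[ℚ] L) → ℤ, (M.map g).sum = ∑ φ, (M.count φ : ℤ) * g φ := by
    intro g
    rw [Finset.sum_multiset_map_count]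
    rw [Finset.sum_subset (Finset.subset_univ _)]
    · apply Finset.sum_congr rfl
      intro φ _
      rw [nsmul_eq_mul]
    · intro φ _ hφ
      rw [Multiset.mem_toFinset, ← Multiset.count_eq_zero] at hφ
      rw [hφ, zero_smul]
  have hz : ∀ σ : L ≃ₐ[ℚ] L, ∑ φ, z φ * nX (σ • φ) = 0 := by
    intro σ
    have e1 : ∑ φ, (M.count φ : ℤ) * nX (σ • φ) = 0 := by
      rw [← hsumcount (fun φ => nX (σ • φ))]; exact horth σ
    have e2 : ∑ φ, (M.count (bar φ) : ℤ) * nX (σ • φ) = 0 := by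
      have e3 : ∑ φ, (M.count (bar φ) : ℤ) * nX (σ • φ) =
          ∑ φ, (M.count φ : ℤ) * nX (σ • bar φ) := by
        apply Finset.sum_nbij' (i := bar) (j := bar)
        · intro φ _; exact mem_univ _
        · intro φ _; exact mem_univ _
        · intro φ _; exact hbb φ
        · intro φ _; exact hbb φ
        · intro φ _; rw [hbb]
      rw [e3]
      have e4 : ∀ φ, (M.count φ : ℤ) * nX (σ • bar φ) = - ((M.count φ : ℤ) * nX (σ • φ)) := by
        intro φ
        rw [← hbG, hnb]; ring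
      rw [Finset.sum_congr rfl (fun φ _ => e4 φ), Finset.sum_neg_distrib, e1, neg_zero]
    have e5 : ∀ φ, z φ * nX (σ • φ) = (M.count φ : ℤ) * nX (σ • φ) -
        (M.count (bar φ) : ℤ) * nX (σ • φ) := by
      intro φ
      show ((M.count φ : ℤ) - M.count (bar φ)) * _ = _
      ring
    rw [Finset.sum_congr rfl (fun φ _ => e5 φ), Finset.sum_sub_distrib, e1, e2, sub_zero]
  have hz0 := odd_orthogonal_zero_r (G := L ≃ₐ[ℚ] L) r hr bar hbb hbf hbG f hf hfb ρ hρ hρb hρf
    hρne y₀ k hblock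
    nX hnb
    (by
      intro φ hφ
      apply hout (emb φ)
      rwa [Ne, ← hy₀])
    hin' z hzb hz
  intro φ
  have := hz0 φ
  have h9 : (M.count φ : ℤ) - M.count (bar φ) = 0 := this
  have h10 : (M.count φ : ℤ) = M.count (bar φ) := by linarith
  exact_mod_cast h10

/-- The symmetric multiplicities for roots in an arbitrary algebraically closed field. -/
theorem count_symm_roots_r (ν : C →* ℝ) (q : ℕ) (hq : 0 < q) (hν0 : 0 < ν q) (hν1 : ν q ≠ 1)
    (π : K) (hgen : ℚ⟮π⟯ = ⊤) (hweil : ∀ φ : K →+* ℂ, ‖φ π‖ ^ 2 = q)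
    (htr : ∀ (φ : F →+* ℂ) (x : F), (starRingEnd ℂ) (φ x) = φ x)
    (K₀ : IntermediateField F K) (hK₀ : ∃ x ∈ K₀, ∃ φ : K →+* ℂ, (starRingEnd ℂ) (φ x) ≠ φ x)
    (r : ℕ) [Fact r.Prime] (hr : r ≠ 2) (k : ℕ) (hdeg : finrank F K = 2 * r ^ k)
    (N : ℕ) (n : (K →+* C) → ℤ)
    (hn : ∀ τ : K →+* C, ν (τ π) ^ (2 * N) = (ν q) ^ ((N : ℤ) + n τ))
    (ι₀ : F →+* C)
    (hout : ∀ τ : K →+* C, τ.comp (algebraMap F K) ≠ ι₀ → (r : ℤ) ∣ n τ)
    (hin : ∀ T : Finset (K →+* C), (∀ τ ∈ T, τ.comp (algebraMap F K) = ι₀) →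
      (∀ τ τ' : K →+* C, τ.comp (algebraMap F K) = ι₀ → τ π * τ' π = q → (τ ∈ T ↔ τ' ∉ T)) →
      (∀ τ τ' : K →+* C, (∀ x ∈ K₀, τ x = τ' x) → τ ∈ T → τ' ∈ T) →
      ¬ (r : ℤ) ∣ ∑ τ ∈ T, n τ)
    {Ω : Type*} [Field Ω] [CharZero Ω] [IsAlgClosed Ω] [DecidableEq Ω] :
    (∀ l : Ω, Polynomial.aeval l (minpoly ℚ π) = 0 → l ≠ 0 ∧ l * l ≠ q) ∧
    ∀ (Λ : Multiset Ω) (j s : ℕ), 0 < s → Λ.card = 2 * j →
    (∀ l ∈ Λ, Polynomial.aeval l (minpoly ℚ π) = 0) →
    Λ.prod ^ s = (q : Ω) ^ (s * j) → ∀ l : Ω, Λ.count l = Λ.count (q / l) := by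
  classical
  obtain ⟨c, hc, -⟩ := exists_conj π hgen q hq hweil
  let L := IntermediateField.normalClosure ℚ K C
  have hfd : FiniteDimensional ℚ L := inferInstance
  -- an embedding of `L` into `Ω`
  let e : L →ₐ[ℚ] Ω := IsAlgClosed.lift
  have hπ0 : π ≠ 0 := by
    rintro rfl
    obtain ⟨φ⟩ : Nonempty (K →+* ℂ) := inferInstance
    have := hweil φ
    rw [map_zero, norm_zero] at this
    norm_num at this
    exact hq.ne' (by exact_mod_cast this.symm)
  -- minimal polynomial splits in L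
  have hnc : IsNormalClosure ℚ K L :=
    Algebra.IsAlgebraic.isNormalClosure_normalClosure (F := ℚ) (K := K) (L := C)
      (fun x => IsAlgClosed.splits _)
  have hsplit : ((minpoly ℚ π).map (algebraMap ℚ L)).Splits := hnc.splits π
  have hroot : ∀ l : Ω, Polynomial.aeval l (minpoly ℚ π) = 0 →
      ∃ φ : K →ₐ[ℚ] L, e (φ π) = l := by
    intro l hl
    have h1 : ((minpoly ℚ π).map (algebraMap ℚ Ω)).roots =
        (((minpoly ℚ π).map (algebraMap ℚ L)).roots).map e := by
      have h2 : (minpoly ℚ π).map (algebraMap ℚ Ω) =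
          ((minpoly ℚ π).map (algebraMap ℚ L)).map e.toRingHom := by
        rw [Polynomial.map_map]
        congr 1
        exact (AlgHom.comp_algebraMap e).symm
      rw [h2]
      exact (hsplit.roots_map e.toRingHom)
    have hne : (minpoly ℚ π).map (algebraMap ℚ Ω) ≠ 0 :=
      Polynomial.map_ne_zero (minpoly.ne_zero (Algebra.IsIntegral.isIntegral π))
    have h3 : l ∈ ((minpoly ℚ π).map (algebraMap ℚ Ω)).roots := by
      rw [Polynomial.mem_roots hne, Polynomial.IsRoot, Polynomial.eval_map_algebraMap]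
      exact hl
    rw [h1, Multiset.mem_map] at h3
    obtain ⟨y, hy, rfl⟩ := h3
    have hy2 : Polynomial.aeval y (minpoly ℚ π) = 0 := by
      have h4 := (Polynomial.mem_roots'.1 hy).2
      rwa [Polynomial.IsRoot, Polynomial.eval_map_algebraMap] at h4
    obtain ⟨φ, hφ⟩ := exists_hom π (Algebra.IsIntegral.isIntegral π) hgen y hy2
    exact ⟨φ, by rw [hφ]⟩
  have key := fun (M : Multiset (K →ₐ[ℚ] L)) (j s : ℕ) (hs : 0 < s) (hM : M.card = 2 * j)
    (hprod : (M.map (fun φ => φ π)).prod ^ s = (q : L) ^ (s * j)) =>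
    count_symm_r ν q hq hν0 hν1 π hgen hweil htr K₀ hK₀ r hr k hdeg N n hn ι₀ hout hin L rfl M j s
      hs hM hprod c hc
  have hcne : c π ≠ π := (key 0 0 1 one_pos (by simp) (by simp)).1
  have hqΩ : (q : Ω) ≠ 0 := by exact_mod_cast hq.ne'
  constructor
  · intro l hl
    obtain ⟨φ, rfl⟩ := hroot l hl
    have h1 : e (φ π) ≠ 0 := by
      rw [Ne, map_eq_zero, map_eq_zero]; exact hπ0
    refine ⟨h1, ?_⟩
    intro h2
    apply hcne
    have h3 : e (φ (π * π)) = e (φ (q : K)) := by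
      rw [map_mul, map_mul, h2, map_natCast, map_natCast]
    have h4 : π * π = q := φ.injective (e.injective h3)
    rw [hc, ← h4, mul_div_assoc, div_self hπ0, mul_one]
  · intro Λ j s hs hcard hroots hprod l
    -- lift the multiset
    obtain ⟨φ₁⟩ : Nonempty (K →ₐ[ℚ] L) := by
      obtain ⟨y, hy⟩ := IsAlgClosed.exists_aeval_eq_zero Ω (minpoly ℚ π)
        (minpoly.degree_pos (Algebra.IsIntegral.isIntegral π)).ne'
      obtain ⟨φ, -⟩ := hroot y hy
      exact ⟨φ⟩
    let g : Ω → (K →ₐ[ℚ] L) := fun l =>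
      if h : ∃ φ : K →ₐ[ℚ] L, e (φ π) = l then h.choose else φ₁
    have hg : ∀ l ∈ Λ, e ((g l) π) = l := by
      intro l hl
      have h := hroot l (hroots l hl)
      simp only [g, dif_pos h]
      exact h.choose_spec
    let M := Λ.map g
    have hΛ : Λ = M.map (fun φ => e (φ π)) := by
      rw [Multiset.map_map]
      symm
      conv_rhs => rw [← Multiset.map_id Λ]
      apply Multiset.map_congr rfl
      intro l hl
      exact hg l hl
    have hinj : Function.Injective (fun φ : K →ₐ[ℚ] L => e (φ π)) := by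
      intro φ ψ h
      exact hom_ext_gen π hgen φ ψ (e.injective h)
    have hM : M.card = 2 * j := by rw [Multiset.card_map]; exact hcard
    have hprodL : (M.map (fun φ => φ π)).prod ^ s = (q : L) ^ (s * j) := by
      apply e.injective
      rw [map_pow, map_pow, map_natCast, ← hprod]
      congr 1
      rw [hΛ, map_multiset_prod, Multiset.map_map]
      rfl
    have hcount := (key M j s hs hM hprodL).2
    have hcount2 : ∀ φ : K →ₐ[ℚ] L, Λ.count (e (φ π)) = M.count φ := by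
      intro φ
      rw [hΛ]
      exact Multiset.count_map_eq_count' (fun φ : K →ₐ[ℚ] L => e (φ π)) M hinj φ
    have hqd : ∀ φ : K →ₐ[ℚ] L, (q : Ω) / e (φ π) = e ((φ.comp c) π) := by
      intro φ
      show _ = e (φ (c π))
      rw [hc, map_div₀, map_div₀, map_natCast, map_natCast]
    by_cases h : ∃ φ : K →ₐ[ℚ] L, e (φ π) = l
    · obtain ⟨φ, rfl⟩ := h
      rw [hqd, hcount2, hcount2]
      exact hcount φ
    · by_cases h' : ∃ φ : K →ₐ[ℚ] L, e (φ π) = q / l
      · exfalso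
        obtain ⟨φ, hφ⟩ := h'
        apply h
        refine ⟨φ.comp c, ?_⟩
        rw [← hqd, hφ, div_div_cancel₀ hqΩ]
      · have h1 : l ∉ Λ := fun hl => h (hroot l (hroots l hl))
        have h2 : (q : Ω) / l ∉ Λ := fun hl => h' (hroot _ (hroots _ hl))
        rw [Multiset.count_eq_zero_of_notMem h1, Multiset.count_eq_zero_of_notMem h2]

end Main

end Pool.Agent.H924R2
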